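import Pool.Agent.Dabab.Mirror

/-!
# Crossing lemmas
-/

namespace Pool.Agent.Dabab

variable {V : Type} {P : Type} [LinearOrder P] {h : P → V → ℕ} {tp : P → V}

omit [LinearOrder P] in
theorem T2.lt (A : IsArr h tp) {p : P} {x y z : V} (H : T2 h tp p x y) (hz : InT tp z)
    (hx : z ≠ x) (hy : z ≠ y) : h p z < h p x ∧ h p z < h p y := by
  obtain ⟨h1, h2, h3, h4⟩ := H
  refine ⟨?_, lt_of_le_of_ne (h4 z hz hx) fun e => hy (A.1 p e)⟩
  rw [← h1]
  exact A.lt_top (by rw [h1]; exact hx)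

omit [LinearOrder P] in
theorem Ln.lt (A : IsArr h tp) {q : P} {n : V} (H : Ln h tp n q) : h q n < h q (tp q) :=
  A.lt_top fun e => H.1 ⟨q, e.symm⟩

/-- A curve lonely on both sides of an adjacent pair is lonely at the place of the adjacency. -/
theorem cross_ln (A : IsArr h tp) (hna : NoAlt h) {x b n : V} {l hi p q₁ q₂ : P} (hl : tp l = x)
    (hh : tp hi = b) (hT : T2 h tp p x b ∨ T2 h tp p b x)
    (hno : ∀ q, l < q → q < hi → tp q ≠ x ∧ tp q ≠ b) (l1 : l < q₁) (l2 : q₁ < hi)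
    (n1 : Ln h tp n q₁) (n2 : Ln h tp n q₂) (hx : tp q₂ ≠ x) (hb : tp q₂ ≠ b)
    (hout : ¬ (l < q₂ ∧ q₂ < hi)) : Ln h tp n p := by
  have hxT : InT tp x := ⟨l, hl⟩
  have hbT : InT tp b := ⟨hi, hh⟩
  have hnx : n ≠ x := fun e => n1.1 (e ▸ hxT)
  have hnb : n ≠ b := fun e => n1.1 (e ▸ hbT)
  have hpo : ¬ (l < p ∧ p < hi) := by
    rintro ⟨h1, h2⟩
    rcases hT with hT | hT
    · exact (hno p h1 h2).1 hT.1
    · exact (hno p h1 h2).2 hT.1
  have main : ¬ (h p n < h p x ∧ h p n < h p b) := by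
    rintro ⟨h1, h2⟩
    exact hout (sep2 A hna hl hh h1 h2 hpo l1 l2 (n1.2 x hxT (hno q₁ l1 l2).1.symm)
      (n1.2 b hbT (hno q₁ l1 l2).2.symm) (n2.2 x hxT hx.symm) (n2.2 b hbT hb.symm))
  refine ⟨n1.1, fun z hz hzp => ?_⟩
  rcases hT with hT | hT
  · have h1 : h p n < h p x := by rw [← hT.1]; exact A.lt_top (by rw [hT.1]; exact hnx)
    have h2 : h p b < h p n := by
      rcases lt_trichotomy (h p b) (h p n) with h2 | h2 | h2
      · exact h2
      · exact absurd (A.1 p h2).symm hnb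
      · exact absurd ⟨h1, h2⟩ main
    exact lt_of_le_of_lt (hT.2.2.2 z hz (by rw [hT.1] at hzp; exact hzp)) h2
  · have h1 : h p n < h p b := by rw [← hT.1]; exact A.lt_top (by rw [hT.1]; exact hnb)
    have h2 : h p x < h p n := by
      rcases lt_trichotomy (h p x) (h p n) with h2 | h2 | h2
      · exact h2
      · exact absurd (A.1 p h2).symm hnx
      · exact absurd ⟨h2, h1⟩ main
    exact lt_of_le_of_lt (hT.2.2.2 z hz (by rw [hT.1] at hzp; exact hzp)) h2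

/-- The same for top curves: they are on one side only. -/
theorem cross_T (A : IsArr h tp) (hna : NoAlt h) {x b z : V} {l hi p q₁ q₂ : P} (hl : tp l = x)
    (hh : tp hi = b) (hT : T2 h tp p x b ∨ T2 h tp p b x)
    (hno : ∀ q, l < q → q < hi → tp q ≠ x ∧ tp q ≠ b) (l1 : l < q₁) (l2 : q₁ < hi)
    (hz : InT tp z) (hzx : z ≠ x) (hzb : z ≠ b) (h1 : h q₁ x < h q₁ z) (h2 : h q₁ b < h q₁ z)
    (h3 : h q₂ x < h q₂ z) (h4 : h q₂ b < h q₂ z) : l < q₂ ∧ q₂ < hi := by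
  have hpo : ¬ (l < p ∧ p < hi) := by
    rintro ⟨h1, h2⟩
    rcases hT with hT | hT
    · exact (hno p h1 h2).1 hT.1
    · exact (hno p h1 h2).2 hT.1
  have hp : h p z < h p x ∧ h p z < h p b := by
    rcases hT with hT | hT
    · exact hT.lt A hz hzx hzb
    · exact (hT.lt A hz hzb hzx).symm
  exact sep2 A hna hl hh hp.1 hp.2 hpo l1 l2 h1 h2 h3 h4

/-- If the pair `{x, b}` is adjacent and `{z, w}` is adjacent with `z` a top curve in `(l, hi)`, then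
`w` is a top curve in `(l, hi)`, or `x` or `b`. -/
theorem cross_T2 (A : IsArr h tp) (hna : NoAlt h) {x b z w : V} {l hi p p' q₁ : P} (hl : tp l = x)
    (hh : tp hi = b) (hT : T2 h tp p x b ∨ T2 h tp p b x)
    (hno : ∀ q, l < q → q < hi → tp q ≠ x ∧ tp q ≠ b) (l1 : l < q₁) (l2 : q₁ < hi)
    (hz : tp q₁ = z) (hT' : T2 h tp p' z w ∨ T2 h tp p' w z) :
    w ∈ Tops tp l hi ∨ w = x ∨ w = b := by
  by_contra hcon
  push Not at hcon
  obtain ⟨hw, hwx, hwb⟩ := hcon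
  have hxT : InT tp x := ⟨l, hl⟩
  have hbT : InT tp b := ⟨hi, hh⟩
  have hzT : InT tp z := ⟨q₁, hz⟩
  have hzx : z ≠ x := hz ▸ (hno q₁ l1 l2).1
  have hzb : z ≠ b := hz ▸ (hno q₁ l1 l2).2
  have top : ∀ {q v u}, tp q = v → u ≠ v → h q u < h q v := by
    intro q v u hq hu
    rw [← hq]
    exact A.lt_top (by rw [hq]; exact hu)
  -- both `z` and `w` are above `x`, `b` at `p'`
  have hwT : InT tp w := by
    rcases hT' with hT' | hT'
    · exact hT'.2.1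
    · exact ⟨p', hT'.1⟩
  have key : (h p' x < h p' z ∧ h p' x < h p' w) ∧ (h p' b < h p' z ∧ h p' b < h p' w) := by
    rcases hT' with hT' | hT'
    · exact ⟨hT'.lt A hxT hzx.symm hwx.symm, hT'.lt A hbT hzb.symm hwb.symm⟩
    · exact ⟨(hT'.lt A hxT hwx.symm hzx.symm).symm, (hT'.lt A hbT hwb.symm hzb.symm).symm⟩
  -- `p'` is in `(l, hi)`
  have hp' := cross_T A hna hl hh hT hno l1 l2 hzT hzx hzb (top hz hzx.symm) (top hz hzb.symm)
    key.1.1 key.2.1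
  obtain ⟨q₂, hq₂⟩ := hwT
  have hq2 := cross_T A hna hl hh hT hno hp'.1 hp'.2 (z := w) ⟨q₂, hq₂⟩ hwx hwb key.1.2 key.2.2
    (q₂ := q₂) (top hq₂ hwx.symm) (top hq₂ hwb.symm)
  exact hw ⟨q₂, hq2.1, hq2.2, hq₂⟩

end Pool.Agent.Dabab
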