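import Mathlib

/-!
# Circular arrangements of curves (dual-ABAB-free hypergraphs): definitions

`P` = positions (finite linear order, read circularly), `V` = curves, `h p v` = height of the curve
`v` at the position `p`, `tp p` = the highest curve at `p`.
-/

namespace Pool.Agent.Dabab

variable {P V : Type}

/-- No pair of curves alternates four times. -/
def NoAlt [LinearOrder P] (h : P → V → ℕ) : Prop :=
  ∀ v w : V, ∀ p₁ p₂ p₃ p₄ : P, p₁ < p₂ → p₂ < p₃ → p₃ < p₄ →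
    h p₁ w < h p₁ v → h p₂ v < h p₂ w → h p₃ w < h p₃ v → ¬ h p₄ v < h p₄ w

/-- The order-free part of an arrangement: heights are injective, `tp p` is the highest curve. -/
def IsArr (h : P → V → ℕ) (tp : P → V) : Prop :=
  (∀ p, Function.Injective (h p)) ∧ ∀ p v, h p v ≤ h p (tp p)

/-- `v` is the top curve somewhere. -/
def InT (tp : P → V) (v : V) : Prop := ∃ p, tp p = v

/-- `n` is never a top curve and is above all top curves at `q`, except the one on top at `q`. -/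
def Ln (h : P → V → ℕ) (tp : P → V) (n : V) (q : P) : Prop :=
  ¬ InT tp n ∧ ∀ z, InT tp z → z ≠ tp q → h q z < h q n

/-- `x` is on top at `p` and `y` is the next top curve at `p`. -/
def T2 (h : P → V → ℕ) (tp : P → V) (p : P) (x y : V) : Prop :=
  tp p = x ∧ InT tp y ∧ y ≠ x ∧ ∀ z, InT tp z → z ≠ x → h p z ≤ h p y

/-- `S` is an up-closed set of the curves which are lonely at `θ`. -/
def Pre (h : P → V → ℕ) (tp : P → V) (θ : P) (S : Finset V) : Prop :=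
  (∀ m ∈ S, Ln h tp m θ) ∧ ∀ m ∈ S, ∀ m', Ln h tp m' θ → h θ m < h θ m' → m' ∈ S

/-- Pairs of top curves. -/
def C1 (h : P → V → ℕ) (tp : P → V) (TG : Set V) (a b : V) (c : V → Fin 3) : Prop :=
  ∀ p x y, T2 h tp p x y → (x ∈ TG ∨ x = a ∨ x = b) → (y ∈ TG ∨ y = a ∨ y = b) →
    (x ∈ TG ∨ y ∈ TG) →
    c x ≠ c y ∨ ∃ n, (∃ q, tp q ∈ TG ∧ Ln h tp n q) ∧ Ln h tp n p ∧ c n ≠ c x

/-- Lonely prefixes under the curves of `TG`. -/
def C2 (h : P → V → ℕ) (tp : P → V) (TG : Set V) (c : V → Fin 3) : Prop :=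
  ∀ θ, tp θ ∈ TG → ∀ S : Finset V, Pre h tp θ S → (∀ m ∈ S, c m = c (tp θ)) → S.card ≤ 4

/-- Bounded damage at `b`. -/
def C3 [DecidableEq V] (h : P → V → ℕ) (tp : P → V) (b : V) (Z : Finset V) (c : V → Fin 3) : Prop :=
  ∀ θ, tp θ = b → ∀ S : Finset V, Pre h tp θ S → (∀ m ∈ S, m ∈ Z → c m = c b) → (S ∩ Z).card ≤ 2

/-- `a` is protected from `Z`. -/
def Prot (h : P → V → ℕ) (tp : P → V) (a : V) (Z : Finset V) (c : V → Fin 3) : Prop :=
  ∀ θ, tp θ = a → ∀ S : Finset V, Pre h tp θ S → (∃ m ∈ S, m ∈ Z) → ∃ m ∈ S, m ∈ Z ∧ c m ≠ c a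

/-- All homes of `z` are before all homes of `x`. -/
def Before [LinearOrder P] (tp : P → V) (z x : V) : Prop := ∀ q r, tp q = z → tp r = x → q < r

/-- Curves crossing over a curve which is adjacent to the outside are coloured like `a`. -/
def C5 [LinearOrder P] (h : P → V → ℕ) (tp : P → V) (TG : Set V) (a b : V) (R : Finset V)
    (c : V → Fin 3) : Prop :=
  ∀ n ∈ R, ∀ x ∈ TG, ∀ w, w ∉ TG → w ≠ a → w ≠ b → (∃ p, T2 h tp p x w ∨ T2 h tp p w x) →
    (∃ q, Ln h tp n q ∧ (tp q = a ∨ (tp q ∈ TG ∧ Before tp (tp q) x))) →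
    (∃ q, Ln h tp n q ∧ (tp q = b ∨ (tp q ∈ TG ∧ Before tp x (tp q)))) → c n = c a

/-- The tops in the region `(lo, hi)`. -/
def Tops [LinearOrder P] (tp : P → V) (lo hi : P) : Set V := {z | ∃ q, lo < q ∧ q < hi ∧ tp q = z}

/-- Hypotheses of the state DOT (`a` designated, at `lo`; `b` at `hi`). -/
structure DotH [LinearOrder P] (h : P → V → ℕ) (tp : P → V) (lo hi : P) (a b : V) (Z : Finset V)
    (c₀ : V → Fin 3) : Prop where
  lt : lo < hi
  tlo : tp lo = a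
  thi : tp hi = b
  s1 : ∀ q q', lo < q → q < hi → tp q' = tp q → lo < q' ∧ q' < hi
  cab : a ≠ b → c₀ a ≠ c₀ b
  hb : a ≠ b → ∀ q, tp q = b → hi ≤ q
  hZ : ∀ n ∈ Z, ¬ InT tp n ∧ ∀ q, Ln h tp n q → (tp q ∈ Tops tp lo hi ∨ tp q = a ∨ tp q = b)
  hX : ∀ n, n ∉ Z → (∃ q, tp q ∈ Tops tp lo hi ∧ Ln h tp n q) →
    c₀ n = c₀ a ∧ ∃ q, Ln h tp n q ∧ tp q ∉ Tops tp lo hi ∧ tp q ≠ a ∧ tp q ≠ b

/-- Conclusion of DOT. -/
structure DotC [DecidableEq V] (h : P → V → ℕ) (tp : P → V) (TG : Set V) (a b : V) (Z : Finset V)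
    (c₀ c : V → Fin 3) : Prop where
  ext : ∀ v, v ∉ TG → v ∉ Z → c v = c₀ v
  c1 : C1 h tp TG a b c
  c2 : C2 h tp TG c
  c3 : a ≠ b → C3 h tp b Z c
  c4 : Prot h tp a Z c

/-- The tops in the region `(lo, hi)` other than `b`. -/
def TopsX [LinearOrder P] (tp : P → V) (lo hi : P) (b : V) : Set V :=
  {z | z ≠ b ∧ ∃ q, lo < q ∧ q < hi ∧ tp q = z}

/-- Hypotheses of the state STAR. -/
structure StarH [LinearOrder P] [DecidableEq V] (h : P → V → ℕ) (tp : P → V) (lo hi : P) (a b : V)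
    (R : Finset V) (c₀ : V → Fin 3) : Prop where
  lt : lo < hi
  tlo : tp lo = a
  thi : tp hi = b
  na : ∀ q, lo < q → q < hi → tp q ≠ a
  s1 : ∀ q q', lo < q → q < hi → tp q ≠ b → tp q' = tp q → lo < q' ∧ q' < hi
  cab : a ≠ b → c₀ a ≠ c₀ b
  hR : ∀ n ∈ R, ¬ InT tp n ∧ ∀ q, Ln h tp n q → (tp q ∈ TopsX tp lo hi b ∨ tp q = a ∨ tp q = b)
  q1 : ∀ θ, tp θ ∈ TopsX tp lo hi b → ∀ S : Finset V, Pre h tp θ S → ∀ j, j ≠ c₀ a →
    (∀ m ∈ S, m ∉ R → c₀ m = j) → (S \ R).card ≤ 2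
  q3 : ∀ n, n ∉ R → (∃ q, tp q ∈ TopsX tp lo hi b ∧ Ln h tp n q) →
    ∃ q, Ln h tp n q ∧ tp q ∉ TopsX tp lo hi b ∧ (tp q = a ∨ tp q ≠ b)

/-- Conclusion of STAR. -/
structure StarC [LinearOrder P] (h : P → V → ℕ) (tp : P → V) (TG : Set V) (a b : V)
    (R : Finset V) (c₀ c : V → Fin 3) : Prop where
  ext : ∀ v, v ∉ TG → v ∉ R → c v = c₀ v
  c1 : C1 h tp TG a b c
  c2 : C2 h tp TG c
  c3 : a ≠ b → Prot h tp b R c
  c5 : a ≠ b → C5 h tp TG a b R c

/-- The claim DOT for all regions with at most `k` positions (all linear orders on positions). -/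
def DotClaim (V : Type) [DecidableEq V] (k : ℕ) : Prop :=
  ∀ (P : Type) [LinearOrder P] [Finite P] (h : P → V → ℕ) (tp : P → V), IsArr h tp → NoAlt h →
    ∀ (lo hi : P) (a b : V) (Z : Finset V) (c₀ : V → Fin 3), (Set.Ioo lo hi).ncard ≤ k →
      DotH h tp lo hi a b Z c₀ → ∃ c, DotC h tp (Tops tp lo hi) a b Z c₀ c

/-- The claim STAR for all regions with at most `k` positions. -/
def StarClaim (V : Type) [DecidableEq V] (k : ℕ) : Prop :=
  ∀ (P : Type) [LinearOrder P] [Finite P] (h : P → V → ℕ) (tp : P → V), IsArr h tp → NoAlt h →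
    ∀ (lo hi : P) (a b : V) (R : Finset V) (c₀ : V → Fin 3), (Set.Ioo lo hi).ncard ≤ k →
      StarH h tp lo hi a b R c₀ → ∃ c, StarC h tp (TopsX tp lo hi b) a b R c₀ c

section basic

variable {h : P → V → ℕ} {tp : P → V}

theorem IsArr.lt_top (A : IsArr h tp) {p : P} {v : V} (hv : v ≠ tp p) : h p v < h p (tp p) :=
  lt_of_le_of_ne (A.2 p v) fun e => hv (A.1 p e)

variable [LinearOrder P]

/-- Chord lemma. -/
theorem sep (hna : NoAlt h) {v w : V} {a₁ a₂ b₁ b₂ : P} (h1 : h a₁ w < h a₁ v)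
    (h2 : h a₂ w < h a₂ v) (h3 : h b₁ v < h b₁ w) (h4 : h b₂ v < h b₂ w) (l1 : a₁ < b₁)
    (l2 : b₁ < a₂) : a₁ < b₂ ∧ b₂ < a₂ := by
  constructor
  · by_contra hc
    rcases (not_lt.mp hc).lt_or_eq with hlt | he
    · exact hna w v b₂ a₁ b₁ a₂ hlt l1 l2 h4 h1 h3 h2
    · subst he; exact absurd h4 (not_lt.mpr h1.le)
  · by_contra hc
    rcases (not_lt.mp hc).lt_or_eq with hlt | he
    · exact hna v w a₁ b₁ a₂ b₂ l1 l2 hlt h1 h3 h2 h4
    · subst he; exact absurd h4 (not_lt.mpr h2.le)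

/-- SEP1: a curve above `t` inside a gap of `t` is above `t` only there. -/
theorem sep1 (A : IsArr h tp) (hna : NoAlt h) {t v : V} {r r' q₁ q₂ : P} (hr : tp r = t)
    (hr' : tp r' = t) (l1 : r < q₁) (l2 : q₁ < r') (h1 : h q₁ t < h q₁ v)
    (h2 : h q₂ t < h q₂ v) : r < q₂ ∧ q₂ < r' := by
  have hne : v ≠ t := by rintro rfl; exact lt_irrefl _ h1
  have hr1 : h r v < h r t := by rw [← hr]; exact A.lt_top (by rw [hr]; exact hne)
  have hr2 : h r' v < h r' t := by rw [← hr']; exact A.lt_top (by rw [hr']; exact hne)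
  exact sep hna hr1 hr2 h1 h2 l1 l2

/-- SEP2. -/
theorem sep2 (A : IsArr h tp) (hna : NoAlt h) {t b v : V} {l hi p q₁ q₂ : P} (hl : tp l = t)
    (hh : tp hi = b) (hp1 : h p v < h p t) (hp2 : h p v < h p b) (hpo : ¬ (l < p ∧ p < hi))
    (l1 : l < q₁) (l2 : q₁ < hi) (h1 : h q₁ t < h q₁ v) (h2 : h q₁ b < h q₁ v)
    (h3 : h q₂ t < h q₂ v) (h4 : h q₂ b < h q₂ v) : l < q₂ ∧ q₂ < hi := by
  have hnt : v ≠ t := by rintro rfl; exact lt_irrefl _ h1
  have hnb : v ≠ b := by rintro rfl; exact lt_irrefl _ h2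
  have hr1 : h l v < h l t := by rw [← hl]; exact A.lt_top (by rw [hl]; exact hnt)
  have hr2 : h hi v < h hi b := by rw [← hh]; exact A.lt_top (by rw [hh]; exact hnb)
  by_cases hlp : l < p
  · have hhp : hi ≤ p := not_lt.mp fun hc => hpo ⟨hlp, hc⟩
    -- `t` at `l` and `p`
    obtain ⟨u1, u2⟩ := sep hna hr1 hp1 h1 h3 l1 (lt_of_lt_of_le l2 hhp)
    refine ⟨u1, ?_⟩
    by_contra hc
    rcases (not_lt.mp hc).lt_or_eq with hlt | he
    · -- `b` at `hi < p`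
      have := sep hna hr2 hp2 h4 h2 hlt u2
      exact absurd this.1 (not_lt.mpr l2.le)
    · subst he; exact absurd h4 (not_lt.mpr hr2.le)
  · have hpl : p ≤ l := not_lt.mp hlp
    obtain ⟨u1, u2⟩ := sep hna hp2 hr2 h2 h4 (lt_of_le_of_lt hpl l1) l2
    refine ⟨?_, u2⟩
    by_contra hc
    rcases (not_lt.mp hc).lt_or_eq with hlt | he
    · have := sep hna hp1 hr1 h3 h1 u1 hlt
      exact absurd this.2 (not_lt.mpr l1.le)
    · subst he; exact absurd h3 (not_lt.mpr hr1.le)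

end basic

end Pool.Agent.Dabab
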