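import Pool.Agent.Dabab.Pseudo

/-!
# DOT from STAR
-/

namespace Pool.Agent.Dabab

/-- DOT from STAR: `E` = curves of `Z` which are at some home `θ` of `a` lonely and the highest of
the curves of `Z` lonely at `θ`; colour `E` by `pseudo` with the two colours `≠ c₀ a`, put
`R = Z \ E` and use STAR. -/
theorem dot_of_star {V : Type} [DecidableEq V] {k : ℕ} (H : StarClaim V k) : DotClaim V k := by
  classical
  intro P _ _ h tp A hna lo hi a b Z c₀ hk HD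
  have top : ∀ {q v u}, tp q = v → u ≠ v → h q u < h q v := by
    intro q v u hq hu
    rw [← hq]
    exact A.lt_top (by rw [hq]; exact hu)
  have haT : InT tp a := ⟨lo, HD.tlo⟩
  have hbT : InT tp b := ⟨hi, HD.thi⟩
  have hna' : ∀ q, lo < q → q < hi → tp q ≠ a := fun q h1 h2 h3 =>
    lt_irrefl _ (HD.s1 q lo h1 h2 (HD.tlo.trans h3.symm)).1
  have hnb' : ∀ q, lo < q → q < hi → tp q ≠ b := fun q h1 h2 h3 =>
    lt_irrefl _ (HD.s1 q hi h1 h2 (HD.thi.trans h3.symm)).2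
  have hTX : TopsX tp lo hi b = Tops tp lo hi := by
    ext z
    constructor
    · rintro ⟨-, h1⟩; exact h1
    · rintro ⟨q, h1, h2, h3⟩
      exact ⟨fun e => hnb' q h1 h2 (h3.trans e), q, h1, h2, h3⟩
  have haTG : a ∉ Tops tp lo hi := by
    rintro ⟨q, h1, h2, h3⟩
    exact hna' q h1 h2 h3
  have hTGT : ∀ {v}, v ∈ Tops tp lo hi → InT tp v := by
    rintro v ⟨q, -, -, h1⟩; exact ⟨q, h1⟩
  have ZnT : ∀ {n}, n ∈ Z → ¬ InT tp n := fun {n} hn => (HD.hZ n hn).1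
  set E : Finset V := Z.filter (fun n => ∃ θ, tp θ = a ∧ Ln h tp n θ ∧
    ∀ m ∈ Z, Ln h tp m θ → h θ m ≤ h θ n) with hEdef
  have hEZ : ∀ {n}, n ∈ E → n ∈ Z := fun hn => (Finset.mem_filter.mp hn).1
  set D : Set P := {θ | tp θ ∈ Tops tp lo hi ∨ (a ≠ b ∧ tp θ = b)} with hDdef
  have hDlo : ∀ θ ∈ D, lo < θ := by
    rintro θ (⟨q, h1, h2, h3⟩ | ⟨h1, h2⟩)
    · exact (HD.s1 q θ h1 h2 h3.symm).1
    · exact lt_of_lt_of_le HD.lt (HD.hb h1 θ h2)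
  have hahome : ∀ r, tp r = a → r ≤ lo ∨ ∀ θ ∈ D, θ < r := by
    intro r hr
    by_contra hcon
    push Not at hcon
    obtain ⟨h1, θ, hθ, h2⟩ := hcon
    have h3 : hi ≤ r := not_lt.mp fun hc => hna' r h1 hc hr
    rcases hθ with ⟨q, e1, e2, e3⟩ | ⟨hab, e3⟩
    · exact absurd (HD.s1 q θ e1 e2 e3.symm).2 (not_lt.mpr (h3.trans h2))
    · have h4 : hi < r := lt_of_le_of_ne h3 fun e => hab (by rw [← hr, ← e, HD.thi])
      have h5 : r < θ := lt_of_le_of_ne h2 fun e => hab (by rw [← hr, e, e3])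
      exact hna a b lo hi r θ HD.lt h4 h5 (top HD.tlo (Ne.symm hab)) (top HD.thi hab)
        (top hr (Ne.symm hab)) (top e3 hab)
  have hEpair : ∀ v ∈ E, ∀ w ∈ E, ∀ p₁ ∈ D, ∀ p₂ ∈ D, ∀ p₃ ∈ D, p₁ < p₂ → p₂ < p₃ →
      h p₁ w < h p₁ v → h p₂ v < h p₂ w → ¬ h p₃ w < h p₃ v := by
    intro v hv w hw p₁ hp1 p₂ hp2 p₃ hp3 h12 h23 a1 a2 a3
    obtain ⟨-, θw, e1, e2, e3⟩ := Finset.mem_filter.mp hw
    have hvw : v ≠ w := by rintro rfl; exact lt_irrefl _ a1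
    have h4 : h θw v < h θw w := by
      by_cases hL : Ln h tp v θw
      · exact lt_of_le_of_ne (e3 v (hEZ hv) hL) fun e => hvw (A.1 θw e)
      · have : ∃ z, InT tp z ∧ z ≠ tp θw ∧ ¬ h θw z < h θw v := by
          by_contra hcon
          push Not at hcon
          exact hL ⟨ZnT (hEZ hv), fun z hz hz' => hcon z hz hz'⟩
        obtain ⟨z, hz1, hz2, hz3⟩ := this
        exact lt_of_le_of_lt (not_lt.mp hz3) (e2.2 z hz1 hz2)
    rcases hahome θw e1 with h5 | h5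
    · exact hna w v θw p₁ p₂ p₃ (lt_of_le_of_lt h5 (hDlo p₁ hp1)) h12 h23 h4 a1 a2 a3
    · exact hna v w p₁ p₂ p₃ θw h12 h23 (h5 p₃ hp3) a1 a2 a3 h4
  obtain ⟨S₂, hS₂E, hS₂⟩ := pseudo h A.1 D E hEpair
  obtain ⟨j₂, j₃, hj2, hj3, hj23⟩ : ∃ j₂ j₃ : Fin 3, j₂ ≠ c₀ a ∧ j₃ ≠ c₀ a ∧ j₂ ≠ j₃ := by
    have : ∀ x : Fin 3, ∃ j₂ j₃ : Fin 3, j₂ ≠ x ∧ j₃ ≠ x ∧ j₂ ≠ j₃ := by decide
    exact this _
  set c₁ : V → Fin 3 := fun v => if v ∈ E then (if v ∈ S₂ then j₂ else j₃) else c₀ v with hc₁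
  have c₁o : ∀ {v}, v ∉ E → c₁ v = c₀ v := fun hv => by simp [hc₁, hv]
  have c₁2 : ∀ {v}, v ∈ E → v ∈ S₂ → c₁ v = j₂ := fun hv hv' => by simp [hc₁, hv, hv']
  have c₁3 : ∀ {v}, v ∈ E → v ∉ S₂ → c₁ v = j₃ := fun hv hv' => by simp [hc₁, hv, hv']
  have haE : a ∉ E := fun hc => ZnT (hEZ hc) haT
  have hbE : b ∉ E := fun hc => ZnT (hEZ hc) hbT
  have haZ : a ∉ Z := fun hc => ZnT hc haT
  -- monochromatic prefixes in `E`
  have monoE : ∀ θ ∈ D, ∀ S : Finset V, Pre h tp θ S → ∀ j, (∀ m ∈ S ∩ E, c₁ m = j) →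
      (S ∩ E).card ≤ 2 := by
    intro θ hθ S hpre j hj
    refine hS₂ θ hθ (S ∩ E) Finset.inter_subset_right (fun x hx y hy hxy => ?_) ?_
    · obtain ⟨hxS, hxE⟩ := Finset.mem_inter.mp hx
      refine Finset.mem_inter.mpr ⟨hpre.2 x hxS y ⟨ZnT (hEZ hy), fun z hz hz' => ?_⟩ hxy, hy⟩
      exact ((hpre.1 x hxS).2 z hz hz').trans hxy
    · by_cases hjj : j = j₂
      · left
        intro m hm
        by_contra hm2
        have h1 := hj m hm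
        rw [c₁3 (Finset.mem_inter.mp hm).2 hm2, hjj] at h1
        exact hj23 h1.symm
      · right
        rw [Finset.disjoint_left]
        intro m hm hm2
        have h1 := hj m hm
        rw [c₁2 (Finset.mem_inter.mp hm).2 hm2] at h1
        exact hjj h1.symm
  have hstar : StarH h tp lo hi a b (Z \ E) c₁ := by
    refine ⟨HD.lt, HD.tlo, HD.thi, hna', fun q q' h1 h2 _ h3 => HD.s1 q q' h1 h2 h3, ?_, ?_, ?_,
      ?_⟩
    · intro hab
      rw [c₁o haE, c₁o hbE]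
      exact HD.cab hab
    · intro n hn
      rw [hTX]
      exact HD.hZ n (Finset.mem_sdiff.mp hn).1
    · intro θ hθ S hpre j hj hm
      rw [hTX] at hθ
      rw [c₁o haE] at hj
      have hsub : S \ (Z \ E) ⊆ S ∩ E := by
        intro m hm'
        obtain ⟨hm1, hm2⟩ := Finset.mem_sdiff.mp hm'
        by_cases hmE : m ∈ E
        · exact Finset.mem_inter.mpr ⟨hm1, hmE⟩
        · exfalso
          have hmZ : m ∉ Z := fun hc => hm2 (Finset.mem_sdiff.mpr ⟨hc, hmE⟩)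
          have h1 := hm m hm1 hm2
          rw [c₁o hmE, (HD.hX m hmZ ⟨θ, hθ, hpre.1 m hm1⟩).1] at h1
          exact hj h1.symm
      refine (Finset.card_le_card hsub).trans (monoE θ (Or.inl hθ) S hpre j fun m hm' => ?_)
      obtain ⟨hm1, hm2⟩ := Finset.mem_inter.mp hm'
      exact hm m hm1 fun hc => (Finset.mem_sdiff.mp hc).2 hm2
    · intro n hn hq
      rw [hTX] at hq ⊢
      by_cases hnE : n ∈ E
      · obtain ⟨-, θ, e1, e2, -⟩ := Finset.mem_filter.mp hnE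
        exact ⟨θ, e2, by rw [e1]; exact haTG, Or.inl e1⟩
      · have hnZ : n ∉ Z := fun hc => hn (Finset.mem_sdiff.mpr ⟨hc, hnE⟩)
        obtain ⟨-, q, h1, h2, h3, h4⟩ := HD.hX n hnZ hq
        exact ⟨q, h1, h2, Or.inr h4⟩
  obtain ⟨c, hc⟩ := H P h tp A hna lo hi a b (Z \ E) c₁ hk hstar
  rw [hTX] at hc
  have ca : c a = c₀ a := by
    rw [hc.ext a haTG fun hh => haZ (Finset.mem_sdiff.mp hh).1, c₁o haE]
  have cE : ∀ {m}, m ∈ E → c m = c₁ m := fun {m} hm =>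
    hc.ext m (fun hh => ZnT (hEZ hm) (hTGT hh)) fun hh => (Finset.mem_sdiff.mp hh).2 hm
  refine ⟨c, ?_, hc.c1, hc.c2, ?_, ?_⟩
  · intro v hv hvZ
    rw [hc.ext v hv fun hh => hvZ (Finset.mem_sdiff.mp hh).1, c₁o fun hh => hvZ (hEZ hh)]
  · intro hab θ hθ S hpre hm
    have hsub : S ∩ Z ⊆ S ∩ E := by
      intro m hm'
      obtain ⟨hm1, hm2⟩ := Finset.mem_inter.mp hm'
      by_cases hmE : m ∈ E
      · exact Finset.mem_inter.mpr ⟨hm1, hmE⟩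
      · exfalso
        obtain ⟨m', e1, e2, e3⟩ := hc.c3 hab θ hθ S hpre ⟨m, hm1, Finset.mem_sdiff.mpr ⟨hm2, hmE⟩⟩
        exact e3 (hm m' e1 (Finset.mem_sdiff.mp e2).1)
    refine (Finset.card_le_card hsub).trans (monoE θ (Or.inr ⟨hab, hθ⟩) S hpre (c b) fun m hm' => ?_)
    obtain ⟨hm1, hm2⟩ := Finset.mem_inter.mp hm'
    rw [← cE hm2]
    exact hm m hm1 (hEZ hm2)
  · intro θ hθ S hpre hm
    obtain ⟨m, hm1, hm2⟩ := hm
    obtain ⟨m', hm', hmax⟩ := Finset.exists_max_image (Z.filter fun n => Ln h tp n θ) (h θ)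
      ⟨m, Finset.mem_filter.mpr ⟨hm2, hpre.1 m hm1⟩⟩
    obtain ⟨hm'Z, hm'L⟩ := Finset.mem_filter.mp hm'
    have hm'E : m' ∈ E := Finset.mem_filter.mpr ⟨hm'Z, θ, hθ, hm'L, fun n hn hnL =>
      hmax n (Finset.mem_filter.mpr ⟨hn, hnL⟩)⟩
    have hm'S : m' ∈ S := by
      rcases (hmax m (Finset.mem_filter.mpr ⟨hm2, hpre.1 m hm1⟩)).lt_or_eq with e | e
      · exact hpre.2 m hm1 m' hm'L e
      · rw [← A.1 θ e]; exact hm1
    refine ⟨m', hm'S, hm'Z, ?_⟩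
    rw [cE hm'E, ca]
    by_cases e : m' ∈ S₂
    · rw [c₁2 hm'E e]; exact hj2
    · rw [c₁3 hm'E e]; exact hj3

end Pool.Agent.Dabab
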