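import Pool.Agent.Dabab.Defs

/-!
# From columns to heights (lexicographic order)
-/

namespace Pool.Agent.Dabab

/-- A strict total order on a finite type is given by an injective function to `ℕ`. -/
theorem exists_rank {V : Type} [Finite V] (r : V → V → Prop) (irr : ∀ v, ¬ r v v)
    (tr : ∀ u v w, r u v → r v w → r u w) (tot : ∀ u v, u ≠ v → r u v ∨ r v u) :
    ∃ h : V → ℕ, Function.Injective h ∧ ∀ v w, r v w ↔ h v < h w := by
  classical
  have _ := Fintype.ofFinite V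
  have key : ∀ v w, r v w →
      (Finset.univ.filter fun u => r u v).card < (Finset.univ.filter fun u => r u w).card := by
    intro v w hvw
    refine Finset.card_lt_card (Finset.ssubset_iff_subset_ne.2 ⟨fun u hu => ?_, fun he => ?_⟩)
    · exact Finset.mem_filter.2 ⟨Finset.mem_univ _, tr u v w (Finset.mem_filter.1 hu).2 hvw⟩
    · have : v ∈ Finset.univ.filter fun u => r u v := by
        rw [he]; exact Finset.mem_filter.2 ⟨Finset.mem_univ _, hvw⟩
      exact irr v (Finset.mem_filter.1 this).2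
  refine ⟨fun v => (Finset.univ.filter fun u => r u v).card, ?_, fun v w => ⟨key v w, fun hlt => ?_⟩⟩
  · intro v w hvw
    by_contra hne
    rcases tot v w hne with h1 | h1
    · exact (key v w h1).ne hvw
    · exact (key w v h1).ne hvw.symm
  · by_cases hvw : v = w
    · subst hvw; exact absurd hlt (lt_irrefl _)
    · rcases tot v w hvw with h1 | h1
      · exact h1
      · exact absurd (key w v h1) (not_lt.2 hlt.le)

/-- Columns `S i` (linear order of the indices) such that no pair of vertices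
alternates four times: there are heights without four alternations such that every `S i` is an
upper set at `i`. Order at `i`: `v` is above `w` iff at the first index `j` in the list
`i, i+1, .., last, i-1, i-2, .., first` at which `S j` contains exactly one of
`v, w`, it contains `v`; if there is no such `j` compare `v, w` in a fixed linear order of `V`
(the same for all `i`). `h i v` = number of vertices below `v`. -/
theorem exists_heights {ι V : Type} [LinearOrder ι] [Finite ι] [Finite V] (S : ι → Finset V)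
    (hS : ∀ v w : V, ¬ ∃ a₁ b₁ a₂ b₂ : ι, a₁ < b₁ ∧ b₁ < a₂ ∧ a₂ < b₂ ∧
      (v ∈ S a₁ ∧ w ∉ S a₁) ∧ (w ∈ S b₁ ∧ v ∉ S b₁) ∧ (v ∈ S a₂ ∧ w ∉ S a₂) ∧
      (w ∈ S b₂ ∧ v ∉ S b₂)) :
    ∃ h : ι → V → ℕ, (∀ i, Function.Injective (h i)) ∧ NoAlt h ∧
      ∀ i v w, v ∈ S i → w ∉ S i → h i w < h i v := by
  classical
  have _ := Fintype.ofFinite ι
  have _ := Fintype.ofFinite V
  obtain ⟨ρ, N, hρ, hN⟩ : ∃ (ρ : ι → ℕ) (N : ℕ), (∀ a b, ρ a < ρ b ↔ a < b) ∧ ∀ a, ρ a < N := by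
    let φ := Fintype.orderIsoFinOfCardEq ι rfl
    exact ⟨fun a => (φ.symm a : ℕ), Fintype.card ι, fun a b => by simp, fun a => (φ.symm a).2⟩
  obtain ⟨e, he⟩ : ∃ e : V → ℕ, Function.Injective e :=
    ⟨fun v => (Fintype.equivFin V v : ℕ), fun v w hvw =>
      (Fintype.equivFin V).injective (Fin.ext hvw)⟩
  have hρi : ∀ a b, ρ a = ρ b → a = b := by
    intro a b hab
    rcases lt_trichotomy a b with h | h | h
    · exact absurd ((hρ a b).2 h) (by omega)
    · exact h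
    · exact absurd ((hρ b a).2 h) (by omega)
  obtain ⟨κ, hκ⟩ : ∃ κ : ι → ι → ℕ, ∀ i j, (ρ i ≤ ρ j ∧ κ i j = ρ j) ∨
      (ρ j < ρ i ∧ κ i j = 2 * N - ρ j) := by
    refine ⟨fun i j => if ρ i ≤ ρ j then ρ j else 2 * N - ρ j, fun i j => ?_⟩
    by_cases h : ρ i ≤ ρ j
    · exact Or.inl ⟨h, by simp [h]⟩
    · exact Or.inr ⟨not_le.1 h, by simp [h]⟩
  have hκi : ∀ i a b, κ i a = κ i b → a = b := by
    intro i a b hab
    have h1 := hN a
    have h2 := hN b
    refine hρi a b ?_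
    rcases hκ i a with h3 | h3 <;> rcases hκ i b with h4 | h4 <;> omega
  -- the relation: `v` is below `w` at `i`
  let r : ι → V → V → Prop := fun i v w =>
    (∃ j, v ∉ S j ∧ w ∈ S j ∧ ∀ j', κ i j' < κ i j → (v ∈ S j' ↔ w ∈ S j')) ∨
      ((∀ j, v ∈ S j ↔ w ∈ S j) ∧ e v < e w)
  have irr : ∀ i v, ¬ r i v v := by
    rintro i v (⟨j, h1, h2, _⟩ | ⟨_, h⟩)
    · exact h1 h2
    · exact lt_irrefl _ h
  have tr : ∀ i u v w, r i u v → r i v w → r i u w := by
    rintro i u v w (⟨j, h1, h2, h3⟩ | ⟨h1, h2⟩) (⟨k, k1, k2, k3⟩ | ⟨k1, k2⟩)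
    · rcases lt_trichotomy (κ i j) (κ i k) with hlt | heq | hlt
      · exact Or.inl ⟨j, h1, (k3 j hlt).1 h2, fun j' hj' =>
          (h3 j' hj').trans (k3 j' (hj'.trans hlt))⟩
      · have := hκi i j k heq
        subst this
        exact absurd h2 k1
      · exact Or.inl ⟨k, fun hu => k1 ((h3 k hlt).1 hu), k2, fun j' hj' =>
          (h3 j' (hj'.trans hlt)).trans (k3 j' hj')⟩
    · exact Or.inl ⟨j, h1, (k1 j).1 h2, fun j' hj' => (h3 j' hj').trans (k1 j')⟩
    · exact Or.inl ⟨k, fun hu => k1 ((h1 k).1 hu), k2, fun j' hj' => (h1 j').trans (k3 j' hj')⟩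
    · exact Or.inr ⟨fun j => (h1 j).trans (k1 j), h2.trans k2⟩
  have tot : ∀ i u v, u ≠ v → r i u v ∨ r i v u := by
    intro i u v huv
    by_cases hall : ∀ j, u ∈ S j ↔ v ∈ S j
    · rcases lt_trichotomy (e u) (e v) with h | h | h
      · exact Or.inl (Or.inr ⟨hall, h⟩)
      · exact absurd (he h) huv
      · exact Or.inr (Or.inr ⟨fun j => (hall j).symm, h⟩)
    · obtain ⟨j, hj, hmin⟩ := Finset.exists_min_image
        (Finset.univ.filter fun j => ¬ (u ∈ S j ↔ v ∈ S j)) (κ i) (by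
          obtain ⟨j, hj⟩ := not_forall.1 hall
          exact ⟨j, Finset.mem_filter.2 ⟨Finset.mem_univ _, hj⟩⟩)
      have hj' := (Finset.mem_filter.1 hj).2
      have hmin' : ∀ j', κ i j' < κ i j → (u ∈ S j' ↔ v ∈ S j') := by
        intro j' hlt
        by_contra hn
        exact absurd (hmin j' (Finset.mem_filter.2 ⟨Finset.mem_univ _, hn⟩)) (not_le.2 hlt)
      by_cases hu : u ∈ S j
      · have hv : v ∉ S j := fun hv => hj' ⟨fun _ => hv, fun _ => hu⟩
        exact Or.inr (Or.inl ⟨j, hv, hu, fun j' h => (hmin' j' h).symm⟩)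
      · have hv : v ∈ S j := by
          by_contra hv
          exact hj' ⟨fun h => absurd h hu, fun h => absurd h hv⟩
        exact Or.inl (Or.inl ⟨j, hu, hv, hmin'⟩)
  choose h hinj hr using fun i => exists_rank (r i) (irr i) (tr i) (tot i)
  refine ⟨h, hinj, ?_, fun i v w hv hw => (hr i w v).1 (Or.inl ⟨i, hw, hv, fun j' hlt => ?_⟩)⟩
  · -- the defining indices increase
    have step : ∀ (v w : V) (p q j k : ι), p < q → (w ∉ S j ∧ v ∈ S j) →
        (∀ j', κ p j' < κ p j → (w ∈ S j' ↔ v ∈ S j')) → (v ∉ S k ∧ w ∈ S k) →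
        (∀ j', κ q j' < κ q k → (v ∈ S j' ↔ w ∈ S j')) → j < k := by
      intro v w p q j k hpq h1 h2 h3 h4
      have a1 : ¬ κ p k < κ p j := fun hlt => h3.1 ((h2 k hlt).1 h3.2)
      have a2 : ¬ κ q j < κ q k := fun hlt => h1.1 ((h4 j hlt).1 h1.2)
      have a3 : ρ j ≠ ρ k := fun hjk => h1.1 (by rw [hρi j k hjk]; exact h3.2)
      have a4 := (hρ p q).2 hpq
      rw [← hρ]
      have n1 := hN j
      have n2 := hN k
      rcases hκ p k with b1 | b1 <;> rcases hκ p j with b2 | b2 <;>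
        rcases hκ q j with b3 | b3 <;> rcases hκ q k with b4 | b4 <;> omega
    intro v w p₁ p₂ p₃ p₄ l1 l2 l3 h1 h2 h3 h4
    rcases (hr p₁ w v).2 h1 with ⟨j₁, m1, m1', m1''⟩ | ⟨m1, m1'⟩
    · rcases (hr p₂ v w).2 h2 with ⟨j₂, m2, m2', m2''⟩ | ⟨m2, _⟩
      · rcases (hr p₃ w v).2 h3 with ⟨j₃, m3, m3', m3''⟩ | ⟨m3, _⟩
        · rcases (hr p₄ v w).2 h4 with ⟨j₄, m4, m4', m4''⟩ | ⟨m4, _⟩
          · exact hS v w ⟨j₁, j₂, j₃, j₄,
              step v w p₁ p₂ j₁ j₂ l1 ⟨m1, m1'⟩ m1'' ⟨m2, m2'⟩ m2'',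
              step w v p₂ p₃ j₂ j₃ l2 ⟨m2, m2'⟩ m2'' ⟨m3, m3'⟩ m3'',
              step v w p₃ p₄ j₃ j₄ l3 ⟨m3, m3'⟩ m3'' ⟨m4, m4'⟩ m4'',
              ⟨m1', m1⟩, ⟨m2', m2⟩, ⟨m3', m3⟩, ⟨m4', m4⟩⟩
          · exact m1 ((m4 j₁).1 m1')
        · exact m1 ((m3 j₁).2 m1')
      · exact m1 ((m2 j₁).1 m1')
    · rcases (hr p₂ v w).2 h2 with ⟨j₂, m2, m2', m2''⟩ | ⟨m2, m2'⟩
      · exact m2 ((m1 j₂).1 m2')
      · exact lt_asymm m1' m2'
  · exfalso
    have n1 := hN i
    have n2 := hN j'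
    rcases hκ i j' with b1 | b1 <;> rcases hκ i i with b2 | b2 <;> omega

end Pool.Agent.Dabab
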