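import Pool.Agent.Dabab.Defs

/-!
# The root state
-/

namespace Pool.Agent.Dabab

section omega

variable {ι V : Type}

/-- The real position of a position of the extended order, if there is one. -/
def mid : WithTop (WithBot ι) → Option ι :=
  WithTop.recTopCoe none (WithBot.recBotCoe none some)

@[simp] theorem mid_top : mid (⊤ : WithTop (WithBot ι)) = none := rfl

@[simp] theorem mid_bot : mid (((⊥ : WithBot ι)) : WithTop (WithBot ι)) = none := rfl

@[simp] theorem mid_bot' : mid (⊥ : WithTop (WithBot ι)) = none := rfl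

@[simp] theorem mid_coe (i : ι) : mid (((i : WithBot ι)) : WithTop (WithBot ι)) = some i := rfl

theorem pos_cases (p : WithTop (WithBot ι)) :
    p = ⊤ ∨ p = ((⊥ : WithBot ι) : WithTop (WithBot ι)) ∨
      ∃ i : ι, p = ((i : WithBot ι) : WithTop (WithBot ι)) := by
  induction p using WithTop.recTopCoe with
  | top => exact Or.inl rfl
  | coe p =>
    induction p using WithBot.recBotCoe with
    | bot => exact Or.inr (Or.inl rfl)
    | coe i => exact Or.inr (Or.inr ⟨i, rfl⟩)

/-- Heights at a real position (`some i`) or at an end position (`none`). -/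
def hO (h : ι → V → ℕ) (i₀ : ι) (M : ℕ) : Option ι → Option V → ℕ
  | none, none => M
  | none, some v => h i₀ v
  | some _, none => 0
  | some i, some v => h i v + 1

/-- Heights with the curve `ω`. -/
def hE (h : ι → V → ℕ) (i₀ : ι) (M : ℕ) (p : WithTop (WithBot ι)) (x : Option V) : ℕ :=
  hO h i₀ M (mid p) x

/-- Top curves with the curve `ω`. -/
def tE (t : ι → V) (p : WithTop (WithBot ι)) : Option V := (mid p).map t

end omega

section order

variable {ι V : Type} [LinearOrder ι]

theorem noAlt_hE (h : ι → V → ℕ) (hna : NoAlt h) (i₀ : ι) (hi₀ : ∀ i, i₀ ≤ i) (M : ℕ) :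
    NoAlt (hE h i₀ M) := by
  intro v w p₁ p₂ p₃ p₄ l1 l2 l3 h1 h2 h3 h4
  have n2 : ∃ i : ι, p₂ = ((i : WithBot ι) : WithTop (WithBot ι)) := by
    rcases pos_cases p₂ with h | h | h
    · subst h; exact absurd l2 (not_lt.mpr le_top)
    · subst h; exact absurd l1 (not_lt.mpr bot_le)
    · exact h
  have n3 : ∃ i : ι, p₃ = ((i : WithBot ι) : WithTop (WithBot ι)) := by
    rcases pos_cases p₃ with h | h | h
    · subst h; exact absurd l3 (not_lt.mpr le_top)
    · subst h; exact absurd l2 (not_lt.mpr bot_le)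
    · exact h
  obtain ⟨i₂, rfl⟩ := n2
  obtain ⟨i₃, rfl⟩ := n3
  have l2' : i₂ < i₃ := by simpa using l2
  cases v with
  | none => exact absurd h3 (by simp [hE, hO])
  | some v =>
    cases w with
    | none => exact absurd h2 (by simp [hE, hO])
    | some w =>
      have h2' : h i₂ v < h i₂ w := by simpa [hE, hO] using h2
      have h3' : h i₃ w < h i₃ v := by simpa [hE, hO] using h3
      rcases pos_cases p₁ with e1 | e1 | ⟨i₁, e1⟩
      · subst e1; exact absurd l1 (not_lt.mpr le_top)
      · subst e1
        have h1' : h i₀ w < h i₀ v := by simpa [hE, hO] using h1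
        have l1' : i₀ < i₂ := by
          refine lt_of_le_of_ne (hi₀ i₂) fun e => ?_
          rw [← e] at h2'
          exact lt_asymm h1' h2'
        rcases pos_cases p₄ with e4 | e4 | ⟨i₄, e4⟩
        · subst e4
          have h4' : h i₀ v < h i₀ w := by simpa [hE, hO] using h4
          exact lt_asymm h1' h4'
        · subst e4; exact absurd l3 (not_lt.mpr bot_le)
        · subst e4
          have l3' : i₃ < i₄ := by simpa using l3
          have h4' : h i₄ v < h i₄ w := by simpa [hE, hO] using h4
          exact hna v w i₀ i₂ i₃ i₄ l1' l2' l3' h1' h2' h3' h4'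
      · subst e1
        have l1' : i₁ < i₂ := by simpa using l1
        have h1' : h i₁ w < h i₁ v := by simpa [hE, hO] using h1
        rcases pos_cases p₄ with e4 | e4 | ⟨i₄, e4⟩
        · subst e4
          have h4' : h i₀ v < h i₀ w := by simpa [hE, hO] using h4
          have l0 : i₀ < i₁ := by
            refine lt_of_le_of_ne (hi₀ i₁) fun e => ?_
            rw [← e] at h1'
            exact lt_asymm h1' h4'
          exact hna w v i₀ i₁ i₂ i₃ l0 l1' l2' h4' h1' h2' h3'
        · subst e4; exact absurd l3 (not_lt.mpr bot_le)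
        · subst e4
          have l3' : i₃ < i₄ := by simpa using l3
          have h4' : h i₄ v < h i₄ w := by simpa [hE, hO] using h4
          exact hna v w i₁ i₂ i₃ i₄ l1' l2' l3' h1' h2' h3' h4'

omit [LinearOrder ι] in
theorem isArr_hE (h : ι → V → ℕ) (hinj : ∀ i, Function.Injective (h i)) (i₀ : ι) (M : ℕ)
    (hM : ∀ v, h i₀ v < M) (t : ι → V) (ht : ∀ i v, h i v ≤ h i (t i)) :
    IsArr (hE h i₀ M) (tE t) := by
  constructor
  · intro p
    rcases pos_cases p with e | e | ⟨i, e⟩ <;> subst e <;> intro v w hvw <;>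
      cases v <;> cases w <;> simp [hE, hO] at hvw ⊢
    · exact absurd hvw.symm (hM _).ne
    · exact absurd hvw (hM _).ne
    · exact hinj _ hvw
    · exact absurd hvw.symm (hM _).ne
    · exact absurd hvw (hM _).ne
    · exact hinj _ hvw
    · exact hinj _ hvw
  · intro p v
    rcases pos_cases p with e | e | ⟨i, e⟩ <;> subst e <;> cases v <;> simp [hE, hO, tE]
    · exact (hM _).le
    · exact (hM _).le
    · exact ht _ _

end order

/-- The colouring from DOT at the root. Positions `WithTop (WithBot ι)` (or any order with two extra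
end points), curves `Option V`, `ω = none`; at the two end positions `ω` is on top and the other
curves are ordered as at the first position of `ι`; at the positions of `ι` the curve `ω` is at the
bottom. State: `lo, hi` = the end points, `a = b = ω`, `Z` = all curves which are never on top,
`c₀` arbitrary. If `C` is an upper set at `i` with at least 6 elements and `x = tp i`: if `C`
contains another top curve, let `y` be the highest one (`T2 i x y`) and use `C1`; otherwise
`C \ {x}` is a `Pre` set with at least 5 elements, use `C2`. -/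
theorem colouring_of_dot (hdot : ∀ (V : Type) [DecidableEq V] (k : ℕ), DotClaim V k)
    {ι V : Type} [LinearOrder ι] [Finite ι] [Finite V] (h : ι → V → ℕ)
    (hinj : ∀ i, Function.Injective (h i)) (hna : NoAlt h) :
    ∃ f : V → Fin 3, ∀ (i : ι) (C : Finset V), 6 ≤ C.card →
      (∀ x ∈ C, ∀ y, y ∉ C → h i y < h i x) → ∃ x ∈ C, ∃ y ∈ C, f x ≠ f y := by
  classical
  by_cases hι : Nonempty ι
  swap
  · exact ⟨fun _ => 0, fun i => absurd ⟨i⟩ hι⟩
  by_cases hV : Nonempty V
  swap
  · refine ⟨fun _ => 0, fun i C hC => ?_⟩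
    have : C = ∅ := Finset.eq_empty_of_forall_notMem fun x _ => hV ⟨x⟩
    subst this
    simp at hC
  have _ := Fintype.ofFinite V
  obtain ⟨i₀, hi₀⟩ : ∃ i₀ : ι, ∀ i, i₀ ≤ i := by
    obtain ⟨i₀, hi₀⟩ := Finite.exists_min (id : ι → ι)
    exact ⟨i₀, hi₀⟩
  have hmax : ∀ i, ∃ v, ∀ w, h i w ≤ h i v := fun i => Finite.exists_max (h i)
  choose t ht using hmax
  obtain ⟨M, hM⟩ : ∃ M, ∀ v, h i₀ v < M := ⟨h i₀ (t i₀) + 1, fun v => Nat.lt_succ_of_le (ht i₀ v)⟩
  have hfin : Finite (WithTop (WithBot ι)) := inferInstanceAs (Finite (Option (Option ι)))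
  have A := isArr_hE h hinj i₀ M hM t ht
  have hna' := noAlt_hE h hna i₀ hi₀ M
  set h' := hE h i₀ M with hh'
  set tp := tE t with htp
  have tp_top : tp ⊤ = none := rfl
  have tp_bot : tp ((⊥ : WithBot ι) : WithTop (WithBot ι)) = none := rfl
  have tp_coe : ∀ i : ι, tp ((i : WithBot ι) : WithTop (WithBot ι)) = some (t i) := fun i => rfl
  have hT0 : InT tp none := ⟨⊤, rfl⟩
  have real_of_some : ∀ (q : WithTop (WithBot ι)) (v : V), tp q = some v →
      ∃ i : ι, q = ((i : WithBot ι) : WithTop (WithBot ι)) := by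
    intro q v hq
    rcases pos_cases q with e | e | e
    · subst e; rw [tp_top] at hq; cases hq
    · subst e; rw [tp_bot] at hq; cases hq
    · exact e
  have bd : ∀ i : ι, ((⊥ : WithBot ι) : WithTop (WithBot ι)) <
      ((i : WithBot ι) : WithTop (WithBot ι)) ∧
      ((i : WithBot ι) : WithTop (WithBot ι)) < ⊤ := fun i =>
    ⟨WithTop.coe_lt_coe.2 (WithBot.bot_lt_coe i), WithTop.coe_lt_top _⟩
  have inTG : ∀ v : V, InT tp (some v) →
      some v ∈ Tops tp ((⊥ : WithBot ι) : WithTop (WithBot ι)) ⊤ := by
    rintro v ⟨q, hq⟩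
    obtain ⟨i, rfl⟩ := real_of_some q v hq
    exact ⟨_, (bd i).1, (bd i).2, hq⟩
  have H : DotH h' tp ((⊥ : WithBot ι) : WithTop (WithBot ι)) ⊤ none none
      (Finset.univ.filter fun n => ¬ InT tp n) (fun _ => 0) := by
    refine ⟨?_, tp_bot, tp_top, ?_, fun hn => absurd rfl hn, fun hn => absurd rfl hn, ?_, ?_⟩
    · exact WithTop.coe_lt_top _
    · intro q q' h1 h2 h3
      rcases pos_cases q with e | e | ⟨i, e⟩
      · subst e; exact absurd h2 (lt_irrefl _)
      · subst e; exact absurd h1 (lt_irrefl _)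
      · subst e
        rw [tp_coe] at h3
        obtain ⟨j, rfl⟩ := real_of_some q' _ h3
        exact bd j
    · intro n hn
      refine ⟨(Finset.mem_filter.1 hn).2, fun q _ => ?_⟩
      rcases pos_cases q with e | e | ⟨i, e⟩
      · subst e; exact Or.inr (Or.inl tp_top)
      · subst e; exact Or.inr (Or.inl tp_bot)
      · subst e; exact Or.inl ⟨_, (bd i).1, (bd i).2, rfl⟩
    · rintro n hn ⟨q, _, hq⟩
      exact absurd (Finset.mem_filter.2 ⟨Finset.mem_univ n, hq.1⟩) hn
  obtain ⟨c, hc⟩ := hdot (Option V) _ (WithTop (WithBot ι)) h' tp A hna'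
    ((⊥ : WithBot ι) : WithTop (WithBot ι)) ⊤ none none _ (fun _ => 0) le_rfl H
  refine ⟨fun v => c (some v), fun i C hC hup => ?_⟩
  have hval : ∀ v, h' ((i : WithBot ι) : WithTop (WithBot ι)) (some v) = h i v + 1 := fun v => rfl
  have hval0 : h' ((i : WithBot ι) : WithTop (WithBot ι)) none = 0 := rfl
  have hxC : t i ∈ C := by
    by_contra hx
    obtain ⟨z, hz⟩ : C.Nonempty := Finset.card_pos.1 (by omega)
    exact absurd (hup z hz _ hx) (not_lt.2 (ht i z))
  have hupC : ∀ x ∈ C, ∀ y, h i x < h i y → y ∈ C := fun x hx y hxy => by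
    by_contra hy
    exact lt_asymm hxy (hup x hx y hy)
  have hxT : InT tp (some (t i)) := ⟨_, tp_coe i⟩
  by_cases hcase : ∃ y ∈ C, y ≠ t i ∧ InT tp (some y)
  · -- another top curve in the column
    obtain ⟨y, hyF, hymax⟩ := Finset.exists_max_image
      (C.filter fun y => y ≠ t i ∧ InT tp (some y)) (h i)
      (by obtain ⟨y, h1, h2⟩ := hcase; exact ⟨y, Finset.mem_filter.2 ⟨h1, h2⟩⟩)
    obtain ⟨hyC, hyx, hyT⟩ := Finset.mem_filter.1 hyF
    have hT2 : T2 h' tp ((i : WithBot ι) : WithTop (WithBot ι)) (some (t i)) (some y) := by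
      refine ⟨tp_coe i, hyT, fun e => hyx (Option.some_injective _ e), fun z hz hzx => ?_⟩
      cases z with
      | none => rw [hval0]; exact Nat.zero_le _
      | some z =>
        rw [hval, hval]
        have hzx' : z ≠ t i := fun e => hzx (by rw [e])
        by_cases hzC : z ∈ C
        · exact Nat.succ_le_succ (hymax z (Finset.mem_filter.2 ⟨hzC, hzx', hz⟩))
        · exact Nat.succ_le_succ (hup y hyC z hzC).le
    rcases hc.c1 _ _ _ hT2 (Or.inl (inTG _ hxT)) (Or.inl (inTG _ hyT)) (Or.inl (inTG _ hxT)) with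
      h1 | ⟨n, _, hn, hcn⟩
    · exact ⟨t i, hxC, y, hyC, h1⟩
    · cases n with
      | none => exact absurd hT0 hn.1
      | some n =>
        have h2 := hn.2 (some y) hyT (by
          rw [tp_coe]; exact fun e => hyx (Option.some_injective _ e))
        rw [hval, hval] at h2
        exact ⟨n, hupC y hyC n (by omega), t i, hxC, hcn⟩
  · -- all other curves of the column are lonely
    have hcase' : ∀ y ∈ C, y ≠ t i → ¬ InT tp (some y) := fun y h1 h2 h3 => hcase ⟨y, h1, h2, h3⟩
    have hpre : Pre h' tp ((i : WithBot ι) : WithTop (WithBot ι))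
        ((C.erase (t i)).map Function.Embedding.some) := by
      constructor
      · intro m hm
        obtain ⟨m, hm', rfl⟩ := Finset.mem_map.1 hm
        obtain ⟨hmx, hmC⟩ := Finset.mem_erase.1 hm'
        refine ⟨hcase' m hmC hmx, fun z hz hzx => ?_⟩
        cases z with
        | none => exact Nat.succ_pos _
        | some z =>
          have hzC : z ∉ C := fun hzC => hcase' z hzC (fun e => hzx (by rw [tp_coe, e])) hz
          exact Nat.succ_lt_succ (hup m hmC z hzC)
      · intro m hm m' hm' hlt
        obtain ⟨m, hm'', rfl⟩ := Finset.mem_map.1 hm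
        obtain ⟨hmx, hmC⟩ := Finset.mem_erase.1 hm''
        cases m' with
        | none => exact absurd hT0 hm'.1
        | some k =>
          have hlt' : h i m < h i k := Nat.lt_of_succ_lt_succ hlt
          refine Finset.mem_map.2 ⟨k, Finset.mem_erase.2 ⟨?_, hupC m hmC k hlt'⟩, rfl⟩
          rintro rfl
          exact hm'.1 hxT
    by_contra hcon
    push Not at hcon
    have hcard := hc.c2 _ (by rw [tp_coe]; exact inTG _ hxT) _ hpre (by
      intro m hm
      obtain ⟨m, hm', rfl⟩ := Finset.mem_map.1 hm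
      rw [tp_coe]
      exact hcon m (Finset.mem_erase.1 hm').2 (t i) hxC)
    rw [Finset.card_map, Finset.card_erase_of_mem hxC] at hcard
    omega

end Pool.Agent.Dabab
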