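import Pool.Agent.Dabab.Cross

/-!
# STAR: empty region, and the case where `b` is a top in the region
-/

namespace Pool.Agent.Dabab

variable {V : Type} [DecidableEq V] {k : ℕ} {P : Type} [LinearOrder P] [Finite P]
  {h : P → V → ℕ} {tp : P → V} {lo hi : P} {a b : V} {R : Finset V} {c₀ : V → Fin 3}

omit [Finite P] in
/-- Case 0: colour all of `R` with `c₀ a`. -/
theorem star_case0 (H : StarH h tp lo hi a b R c₀)
    (hemp : ∀ q, lo < q → ¬ q < hi) : ∃ c, StarC h tp (TopsX tp lo hi b) a b R c₀ c := by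
  have hTG : ∀ {v}, v ∉ TopsX tp lo hi b := by
    rintro v ⟨-, q, h1, h2, -⟩
    exact hemp q h1 h2
  have hbR : b ∉ R := fun hc => (H.hR b hc).1 ⟨hi, H.thi⟩
  refine ⟨fun v => if v ∈ R then c₀ a else c₀ v, ?_, ?_, ?_, ?_, ?_⟩
  · intro v _ hv
    simp [hv]
  · intro p x y _ _ _ hxy
    rcases hxy with e | e
    · exact absurd e hTG
    · exact absurd e hTG
  · intro θ hθ
    exact absurd hθ hTG
  · intro hab θ hθ S hS hm
    obtain ⟨m, hm, hmR⟩ := hm
    refine ⟨m, hm, hmR, ?_⟩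
    simp only [hmR, hbR, if_true, if_false]
    exact H.cab hab
  · intro _ n _ x hx
    exact absurd hx hTG

/-- Case 1: `b` is a top in `(lo, hi)` (then `b ≠ a` by `H.na`). -/
theorem star_case1 (hD : ∀ k' < k, DotClaim V k') (hS : ∀ k' < k, StarClaim V k')
    (A : IsArr h tp) (hna : NoAlt h) (hk : (Set.Ioo lo hi).ncard ≤ k)
    (H : StarH h tp lo hi a b R c₀) (hbin : ∃ q, lo < q ∧ q < hi ∧ tp q = b) :
    ∃ c, StarC h tp (TopsX tp lo hi b) a b R c₀ c := by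
  classical
  have top : ∀ {q v u}, tp q = v → u ≠ v → h q u < h q v := by
    intro q v u hq hu
    rw [← hq]
    exact A.lt_top (by rw [hq]; exact hu)
  have hab : a ≠ b := by
    obtain ⟨q, h1, h2, h3⟩ := hbin
    exact fun e => H.na q h1 h2 (h3.trans e.symm)
  obtain ⟨r, ⟨r1, r2, hr⟩, hrmax⟩ := Set.exists_max_image {q | lo < q ∧ q < hi ∧ tp q = b} id
    (Set.toFinite _) hbin
  have hrno : ∀ q, r < q → q < hi → tp q ≠ b := fun q h1 h2 h3 =>
    absurd (hrmax q ⟨r1.trans h1, h2, h3⟩) (not_le.mpr h1)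
  have haT : InT tp a := ⟨lo, H.tlo⟩
  have hbT : InT tp b := ⟨hi, H.thi⟩
  have haTG : a ∉ TopsX tp lo hi b := by
    rintro ⟨-, q, h1, h2, h3⟩
    exact H.na q h1 h2 h3
  have hbTG : b ∉ TopsX tp lo hi b := fun hc => hc.1 rfl
  have hTI : ∀ {v}, v ∈ Tops tp r hi → v ∈ TopsX tp lo hi b := by
    rintro v ⟨q, h1, h2, rfl⟩
    exact ⟨hrno q h1 h2, q, r1.trans h1, h2, rfl⟩
  have hT' : ∀ {v}, v ∈ TopsX tp lo r b → v ∈ TopsX tp lo hi b := by
    rintro v ⟨h0, q, h1, h2, h3⟩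
    exact ⟨h0, q, h1, h2.trans r2, h3⟩
  have haTI : a ∉ Tops tp r hi := fun hc => haTG (hTI hc)
  have hbTI : b ∉ Tops tp r hi := fun hc => hbTG (hTI hc)
  have haT' : a ∉ TopsX tp lo r b := fun hc => haTG (hT' hc)
  have hbT' : b ∉ TopsX tp lo r b := fun hc => hc.1 rfl
  have s1I : ∀ q q', r < q → q < hi → tp q' = tp q → r < q' ∧ q' < hi := by
    intro q q' h1 h2 h3
    have hne := hrno q h1 h2
    exact sep1 A hna hr H.thi h1 h2 (v := tp q) (top rfl hne.symm) (top h3 hne.symm)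
  have s1' : ∀ q q', lo < q → q < r → tp q ≠ b → tp q' = tp q → lo < q' ∧ q' < r := by
    intro q q' h1 h2 h3 h4
    have h5 := H.s1 q q' h1 (h2.trans r2) h3 h4
    refine ⟨h5.1, ?_⟩
    rcases lt_trichotomy q' r with h6 | h6 | h6
    · exact h6
    · exact absurd (by rw [← h4, h6, hr]) h3
    · exact absurd (s1I q' q h6 h5.2 h4.symm).1 (not_lt.mpr h2.le)
  have hdisj : ∀ {v}, v ∈ Tops tp r hi → v ∉ TopsX tp lo r b := by
    rintro v ⟨q, h1, h2, rfl⟩ ⟨-, q', h3, h4, h5⟩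
    exact absurd (s1I q q' h1 h2 h5).1 (not_lt.mpr h4.le)
  have hTGcases : ∀ {v}, v ∈ TopsX tp lo hi b → v ∈ Tops tp r hi ∨ v ∈ TopsX tp lo r b := by
    rintro v ⟨h0, q, h1, h2, h3⟩
    rcases lt_trichotomy q r with h6 | h6 | h6
    · exact Or.inr ⟨h0, q, h1, h6, h3⟩
    · exact absurd (by rw [← h3, h6, hr]) h0
    · exact Or.inl ⟨q, h6, h2, h3⟩
  set Zin : Finset V := R.filter (fun n => ∃ q, r < q ∧ q < hi ∧ Ln h tp n q) with hZdef
  have hZR : ∀ {n}, n ∈ Zin → n ∈ R := fun hn => (Finset.mem_filter.mp hn).1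
  have RnT : ∀ {n}, n ∈ R → ¬ InT tp n := fun {n} hn => (H.hR n hn).1
  have hab1 : ∀ {n q q₀}, r < q₀ → q₀ < hi → Ln h tp n q₀ → Ln h tp n q → tp q ≠ b →
      r < q ∧ q < hi := by
    intro n q q₀ h1 h2 h3 h4 h5
    exact sep1 A hna hr H.thi h1 h2 (h3.2 b hbT (hrno q₀ h1 h2).symm) (h4.2 b hbT h5.symm)
  have hZcap : ∀ {n}, n ∈ Zin → ∀ {q}, Ln h tp n q → (tp q ∈ Tops tp r hi ∨ tp q = b) := by
    intro n hn q hq
    obtain ⟨-, q₀, h1, h2, h3⟩ := Finset.mem_filter.mp hn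
    by_cases hb : tp q = b
    · exact Or.inr hb
    · have := hab1 h1 h2 h3 hq hb
      exact Or.inl ⟨q, this.1, this.2, rfl⟩
  have hZT' : ∀ {n q}, Ln h tp n q → tp q ∈ TopsX tp lo r b → n ∉ Zin := by
    intro n q hq h1 hn
    rcases hZcap hn hq with h2 | h2
    · exact hdisj h2 h1
    · exact hbT' (h2 ▸ h1)
  have hR'cap : ∀ {n}, n ∈ R \ Zin → ∀ {q}, Ln h tp n q →
      (tp q ∈ TopsX tp lo r b ∨ tp q = a ∨ tp q = b) := by
    intro n hn q hq
    obtain ⟨hnR, hnZ⟩ := Finset.mem_sdiff.mp hn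
    rcases (H.hR n hnR).2 q hq with h1 | h1
    · obtain ⟨h0, q₀, h2, h3, h4⟩ := h1
      have h5 := H.s1 q₀ q h2 h3 (by rw [h4]; exact h0) h4.symm
      rcases lt_trichotomy q r with h6 | h6 | h6
      · exact Or.inl ⟨h0, q, h5.1, h6, rfl⟩
      · exact Or.inr (Or.inr (by rw [h6, hr]))
      · exact absurd (Finset.mem_filter.mpr ⟨hnR, q, h6, h5.2, hq⟩) hnZ
    · exact Or.inr h1
  have haR : a ∉ R := fun hc => RnT hc haT
  have hbR : b ∉ R := fun hc => RnT hc hbT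
  have hcard1 : (Set.Ioo lo r).ncard < (Set.Ioo lo hi).ncard := by
    refine Set.ncard_lt_ncard ?_ (Set.toFinite _)
    refine ⟨fun q hq => ⟨hq.1, hq.2.trans r2⟩, fun hc => ?_⟩
    exact lt_irrefl _ (hc (show r ∈ Set.Ioo lo hi from ⟨r1, r2⟩)).2
  have hcard2 : (Set.Ioo r hi).ncard < (Set.Ioo lo hi).ncard := by
    refine Set.ncard_lt_ncard ?_ (Set.toFinite _)
    refine ⟨fun q hq => ⟨r1.trans hq.1, hq.2⟩, fun hc => ?_⟩
    exact lt_irrefl _ (hc (show r ∈ Set.Ioo lo hi from ⟨r1, r2⟩)).1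
  have hstar : StarH h tp lo r a b (R \ Zin) c₀ := by
    refine ⟨r1, H.tlo, hr, fun q h1 h2 => H.na q h1 (h2.trans r2), s1', H.cab, ?_, ?_, ?_⟩
    · intro n hn
      exact ⟨RnT (Finset.mem_sdiff.mp hn).1, fun q hq => hR'cap hn hq⟩
    · intro θ hθ S hS' j' hj' hm
      have hsub : S \ (R \ Zin) ⊆ S \ R := by
        intro m hm'
        obtain ⟨hm1, hm2⟩ := Finset.mem_sdiff.mp hm'
        refine Finset.mem_sdiff.mpr ⟨hm1, fun hmR => hm2 (Finset.mem_sdiff.mpr ⟨hmR, ?_⟩)⟩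
        exact hZT' (hS'.1 m hm1) hθ
      exact (Finset.card_le_card hsub).trans (H.q1 θ (hT' hθ) S hS' j' hj' fun m hm1 hm2 =>
        hm m hm1 fun hc => hm2 (Finset.mem_sdiff.mp hc).1)
    · intro n hn hq
      obtain ⟨q, hq1, hq2⟩ := hq
      have hnR : n ∉ R := fun hc => hn (Finset.mem_sdiff.mpr ⟨hc, hZT' hq2 hq1⟩)
      obtain ⟨q', h1, h2, h3⟩ := H.q3 n hnR ⟨q, hT' hq1, hq2⟩
      exact ⟨q', h1, fun hc => h2 (hT' hc), h3⟩
  obtain ⟨c₂, hc₂⟩ := hS _ (lt_of_lt_of_le hcard1 hk) P h tp A hna lo r a b (R \ Zin) c₀ le_rfl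
    hstar
  have hdot : DotH h tp r hi b b Zin c₂ := by
    refine ⟨r2, hr, H.thi, s1I, fun e => absurd rfl e, fun e => absurd rfl e, ?_, ?_⟩
    · intro n hn
      refine ⟨RnT (hZR hn), fun q hq => ?_⟩
      rcases hZcap hn hq with e | e
      · exact Or.inl e
      · exact Or.inr (Or.inl e)
    · rintro n hn ⟨q, ⟨q', h1, h2, h3⟩, hq⟩
      exfalso
      have h4 := s1I q' q h1 h2 h3.symm
      have hnR : n ∉ R := fun hc => hn (Finset.mem_filter.mpr ⟨hc, q, h4.1, h4.2, hq⟩)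
      have hqTG : tp q ∈ TopsX tp lo hi b := hTI ⟨q, h4.1, h4.2, rfl⟩
      obtain ⟨q₂, h5, h6, h7⟩ := H.q3 n hnR ⟨q, hqTG, hq⟩
      have h8 : tp q₂ ≠ b := by
        rcases h7 with e | e
        · rw [e]; exact hab
        · exact e
      have h9 := hab1 h4.1 h4.2 hq h5 h8
      exact h6 (hTI ⟨q₂, h9.1, h9.2, rfl⟩)
  obtain ⟨c₃, hc₃⟩ := hD _ (lt_of_lt_of_le hcard2 hk) P h tp A hna r hi b b Zin c₂ le_rfl hdot
  have hT'T : ∀ {v}, v ∈ TopsX tp lo r b → InT tp v := by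
    rintro v ⟨-, q, -, -, h1⟩; exact ⟨q, h1⟩
  have hTIT : ∀ {v}, v ∈ Tops tp r hi → InT tp v := by
    rintro v ⟨q, -, -, h1⟩; exact ⟨q, h1⟩
  have TnZ : ∀ {v}, InT tp v → v ∉ Zin := fun h1 h2 => RnT (hZR h2) h1
  have c₃o : ∀ {v}, v ∉ Tops tp r hi → v ∉ Zin → c₃ v = c₂ v := fun {v} h1 h2 => hc₃.ext v h1 h2
  have c₃a : c₃ a = c₂ a := c₃o haTI (TnZ haT)
  have c₃b : c₃ b = c₂ b := c₃o hbTI (TnZ hbT)
  have c₃T' : ∀ {v}, v ∈ TopsX tp lo r b → c₃ v = c₂ v := fun {v} h1 =>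
    c₃o (fun hc => hdisj hc h1) (TnZ (hT'T h1))
  have c₃N : ∀ {n}, ¬ InT tp n → n ∉ Zin → c₃ n = c₂ n := fun {n} h1 h2 =>
    c₃o (fun hc => h1 (hTIT hc)) h2
  have sepTI : ∀ {p z w}, z ∈ Tops tp r hi → (T2 h tp p z w ∨ T2 h tp p w z) →
      w ∈ Tops tp r hi ∨ w = b := by
    rintro p z w ⟨q, h1, h2, h3⟩ hT
    by_cases hwb : w = b
    · exact Or.inr hwb
    left
    have hzb : z ≠ b := h3 ▸ hrno q h1 h2
    have key : h p b < h p z ∧ h p b < h p w := by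
      rcases hT with hT | hT
      · exact hT.lt A hbT hzb.symm (Ne.symm hwb)
      · exact (hT.lt A hbT (Ne.symm hwb) hzb.symm).symm
    have hp := sep1 A hna hr H.thi h1 h2 (v := z) (top h3 hzb.symm) key.1
    have hwT : InT tp w := by
      rcases hT with hT | hT
      · exact hT.2.1
      · exact ⟨p, hT.1⟩
    obtain ⟨q₂, hq₂⟩ := hwT
    have hq := sep1 A hna hr H.thi hp.1 hp.2 (v := w) key.2 (top hq₂ (Ne.symm hwb))
    exact ⟨q₂, hq.1, hq.2, hq₂⟩
  refine ⟨c₃, ?_, ?_, ?_, ?_, ?_⟩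
  · intro v hv hvR
    rw [c₃o (fun hc => hv (hTI hc)) (fun hc => hvR (hZR hc)),
      hc₂.ext v (fun hc => hv (hT' hc)) (fun hc => hvR (Finset.mem_sdiff.mp hc).1)]
  · intro p x y hT hx hy hxy
    by_cases hTIc : x ∈ Tops tp r hi ∨ y ∈ Tops tp r hi
    · have hx' : x ∈ Tops tp r hi ∨ x = b ∨ x = b := by
        rcases hTIc with h1 | h1
        · exact Or.inl h1
        · rcases sepTI h1 (Or.inr hT) with h2 | h2
          · exact Or.inl h2
          · exact Or.inr (Or.inl h2)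
      have hy' : y ∈ Tops tp r hi ∨ y = b ∨ y = b := by
        rcases hTIc with h1 | h1
        · rcases sepTI h1 (Or.inl hT) with h2 | h2
          · exact Or.inl h2
          · exact Or.inr (Or.inl h2)
        · exact Or.inl h1
      rcases hc₃.c1 p x y hT hx' hy' hTIc with h1 | ⟨n, ⟨q, h1, h2⟩, h3, h4⟩
      · exact Or.inl h1
      · exact Or.inr ⟨n, ⟨q, hTI h1, h2⟩, h3, h4⟩
    · push Not at hTIc
      have hx' : x ∈ TopsX tp lo r b ∨ x = a ∨ x = b := by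
        rcases hx with h1 | h1
        · rcases hTGcases h1 with h2 | h2
          · exact absurd h2 hTIc.1
          · exact Or.inl h2
        · exact Or.inr h1
      have hy' : y ∈ TopsX tp lo r b ∨ y = a ∨ y = b := by
        rcases hy with h1 | h1
        · rcases hTGcases h1 with h2 | h2
          · exact absurd h2 hTIc.2
          · exact Or.inl h2
        · exact Or.inr h1
      have hxy' : x ∈ TopsX tp lo r b ∨ y ∈ TopsX tp lo r b := by
        rcases hxy with h1 | h1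
        · rcases hTGcases h1 with h2 | h2
          · exact absurd h2 hTIc.1
          · exact Or.inl h2
        · rcases hTGcases h1 with h2 | h2
          · exact absurd h2 hTIc.2
          · exact Or.inr h2
      have val : ∀ {v}, (v ∈ TopsX tp lo r b ∨ v = a ∨ v = b) → c₃ v = c₂ v := by
        rintro v (e | e | e)
        · exact c₃T' e
        · rw [e, c₃a]
        · rw [e, c₃b]
      rcases hc₂.c1 p x y hT hx' hy' hxy' with h1 | ⟨n, ⟨q, h1, h2⟩, h3, h4⟩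
      · exact Or.inl (by rw [val hx', val hy']; exact h1)
      · exact Or.inr ⟨n, ⟨q, hT' h1, h2⟩, h3, by rw [val hx', c₃N h2.1 (hZT' h2 h1)]; exact h4⟩
  · intro θ hθ S hpre hmono
    rcases hTGcases hθ with e | e
    · exact hc₃.c2 θ e S hpre hmono
    · refine hc₂.c2 θ e S hpre fun m hm => ?_
      have hmL := hpre.1 m hm
      rw [← c₃N hmL.1 (hZT' hmL e), ← c₃T' e]
      exact hmono m hm
  · intro _ θ hθ S hpre hm
    obtain ⟨m, hm, hmR⟩ := hm
    by_cases hmZ : m ∈ Zin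
    · obtain ⟨m', h1, h2, h3⟩ := hc₃.c4 θ hθ S hpre ⟨m, hm, hmZ⟩
      exact ⟨m', h1, hZR h2, h3⟩
    · obtain ⟨m', h1, h2, h3⟩ := hc₂.c3 hab θ hθ S hpre ⟨m, hm, Finset.mem_sdiff.mpr ⟨hmR, hmZ⟩⟩
      obtain ⟨h4, h5⟩ := Finset.mem_sdiff.mp h2
      exact ⟨m', h1, h4, by rw [c₃N (RnT h4) h5, c₃b]; exact h3⟩
  · intro _ n hn x hx w hw hwa hwb hadj hleft hright
    rw [c₃a]
    obtain ⟨q₁, hq1, hl1⟩ := hleft
    obtain ⟨q₂, hq2, hr2⟩ := hright
    rcases hTGcases hx with e | e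
    · exfalso
      obtain ⟨p, hp⟩ := hadj
      rcases sepTI e hp with h1 | h1
      · exact hw (hTI h1)
      · exact hwb h1
    · obtain ⟨q₀, e1, e2, e3⟩ := e.2
      by_cases hnZ : n ∈ Zin
      · exfalso
        rcases hl1 with h1 | ⟨h1, h2⟩
        · rcases hZcap hnZ hq1 with h3 | h3
          · exact haTI (h1 ▸ h3)
          · exact hab (h1.symm.trans h3)
        · rcases hZcap hnZ hq1 with ⟨q, f1, f2, f3⟩ | h3
          · exact absurd (h2 q q₀ f3 e3) (not_lt.mpr (e2.trans f1).le)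
          · exact hbTG (h3 ▸ h1)
      · have hnR' : n ∈ R \ Zin := Finset.mem_sdiff.mpr ⟨hn, hnZ⟩
        rw [c₃N (RnT hn) hnZ]
        refine hc₂.c5 hab n hnR' x e w (fun hc => hw (hT' hc)) hwa hwb hadj ⟨q₁, hq1, ?_⟩
          ⟨q₂, hq2, ?_⟩
        · rcases hl1 with h1 | ⟨h1, h2⟩
          · exact Or.inl h1
          · rcases hR'cap hnR' hq1 with h3 | h3 | h3
            · exact Or.inr ⟨h3, h2⟩
            · exact Or.inl h3
            · exact absurd (h3 ▸ h1) hbTG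
        · rcases hr2 with h1 | ⟨h1, h2⟩
          · exact Or.inl h1
          · rcases hR'cap hnR' hq2 with h3 | h3 | h3
            · exact Or.inr ⟨h3, h2⟩
            · exact absurd (h3 ▸ h1) haTG
            · exact Or.inl h3

end Pool.Agent.Dabab
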