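import Pool.Agent.Dabab.Cross

/-!
# STAR: the main case
-/

namespace Pool.Agent.Dabab

variable {V : Type} [DecidableEq V] {k : ℕ} {P : Type} [LinearOrder P] [Finite P]
  {h : P → V → ℕ} {tp : P → V} {lo hi : P} {a b : V} {R : Finset V} {c₀ : V → Fin 3}

omit [DecidableEq V] in
theorem exists_last {z : V} (hz : ∃ q, tp q = z) : ∃ l, tp l = z ∧ ∀ q, tp q = z → q ≤ l := by
  obtain ⟨l, hl, hmax⟩ := Set.exists_max_image {q | tp q = z} id (Set.toFinite _) hz
  exact ⟨l, hl, fun q hq => hmax q hq⟩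

/-- The candidates (as positions: last homes). -/
def Cand (h : P → V → ℕ) (tp : P → V) (lo hi : P) (a b : V) (R : Finset V) (c₀ : V → Fin 3)
    (l : P) : Prop :=
  (lo < l ∧ l < hi ∧ ∀ q, tp q = tp l → q ≤ l) ∧
    ((∀ q, l < q → ¬ q < hi) ∨
      (a ≠ b ∧ (∃ p, T2 h tp p (tp l) b ∨ T2 h tp p b (tp l)) ∧
        (∀ n, n ∉ R → (∃ q, l < q ∧ q < hi ∧ Ln h tp n q) → c₀ n = c₀ b) ∧
        (∀ n ∈ R, (∃ q, l < q ∧ q < hi ∧ Ln h tp n q) →
          ∀ q, Ln h tp n q → (tp q ∈ Tops tp l hi ∨ tp q = tp l ∨ tp q = b))))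

theorem star_case2 (hD : ∀ k' < k, DotClaim V k') (hS : ∀ k' < k, StarClaim V k')
    (A : IsArr h tp) (hna : NoAlt h) (hk : (Set.Ioo lo hi).ncard ≤ k)
    (H : StarH h tp lo hi a b R c₀) (hbout : ∀ q, lo < q → q < hi → tp q ≠ b)
    (hne : ∃ q, lo < q ∧ q < hi) :
    ∃ c, StarC h tp (TopsX tp lo hi b) a b R c₀ c := by
  classical
  have top : ∀ {q v u}, tp q = v → u ≠ v → h q u < h q v := by
    intro q v u hq hu
    rw [← hq]
    exact A.lt_top (by rw [hq]; exact hu)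
  have hs1 : ∀ q q', lo < q → q < hi → tp q' = tp q → lo < q' ∧ q' < hi := fun q q' h1 h2 h3 =>
    H.s1 q q' h1 h2 (hbout q h1 h2) h3
  have haT : InT tp a := ⟨lo, H.tlo⟩
  have hbT : InT tp b := ⟨hi, H.thi⟩
  -- membership in `TG`
  have hTG : ∀ {q}, lo < q → q < hi → tp q ∈ TopsX tp lo hi b := fun {q} h1 h2 =>
    ⟨hbout q h1 h2, q, h1, h2, rfl⟩
  have haTG : a ∉ TopsX tp lo hi b := by
    rintro ⟨-, q, h1, h2, h3⟩
    exact H.na q h1 h2 h3
  have hbTG : b ∉ TopsX tp lo hi b := fun hc => hc.1 rfl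
  -- the choice of `l`
  obtain ⟨l, hlC, hlmin⟩ : ∃ l, Cand h tp lo hi a b R c₀ l ∧
      ∀ l', Cand h tp lo hi a b R c₀ l' → l ≤ l' := by
    have hfin : (Set.Ioo lo hi).Finite := Set.toFinite _
    obtain ⟨m, hm, hmax⟩ := Set.exists_max_image (Set.Ioo lo hi) id hfin hne
    have hmC : Cand h tp lo hi a b R c₀ m := by
      refine ⟨⟨hm.1, hm.2, fun q hq => ?_⟩, Or.inl fun q h1 h2 => ?_⟩
      · exact hmax q (hs1 m q hm.1 hm.2 hq)
      · exact absurd (hmax q ⟨hm.1.trans h1, h2⟩) (not_le.mpr h1)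
    obtain ⟨l, hl, hlm⟩ := Set.exists_min_image {l | Cand h tp lo hi a b R c₀ l} id
      (Set.toFinite _) ⟨m, hmC⟩
    exact ⟨l, hl, fun l' hl' => hlm l' hl'⟩
  obtain ⟨⟨l1, l2, llast⟩, lalt⟩ := hlC
  obtain ⟨t, ht⟩ : ∃ t, tp l = t := ⟨_, rfl⟩
  have hta : t ≠ a := ht ▸ H.na l l1 l2
  have htb : t ≠ b := ht ▸ hbout l l1 l2
  have htT : InT tp t := ⟨l, ht⟩
  have htTG : t ∈ TopsX tp lo hi b := ht ▸ hTG l1 l2
  have hlast : ∀ q, tp q = t → q ≤ l := fun q hq => llast q (hq.trans ht.symm)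
  have hno : ∀ q, l < q → q < hi → tp q ≠ t ∧ tp q ≠ b := fun q h1 h2 =>
    ⟨fun e => absurd (hlast q e) (not_le.mpr h1), hbout q (l1.trans h1) h2⟩
  -- the second alternative, if the region `(l, hi)` is not empty
  have alt2 : ∀ q, l < q → q < hi → a ≠ b ∧ (∃ p, T2 h tp p t b ∨ T2 h tp p b t) ∧
      (∀ n, n ∉ R → (∃ q, l < q ∧ q < hi ∧ Ln h tp n q) → c₀ n = c₀ b) ∧
      (∀ n ∈ R, (∃ q, l < q ∧ q < hi ∧ Ln h tp n q) →
        ∀ q, Ln h tp n q → (tp q ∈ Tops tp l hi ∨ tp q = t ∨ tp q = b)) := by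
    intro q h1 h2
    rcases lalt with hemp | halt
    · exact absurd h2 (hemp q h1)
    · rw [ht] at halt; exact halt
  -- regions
  have hTA : ∀ {v}, v ∈ Tops tp l hi → v ∈ TopsX tp lo hi b := by
    rintro v ⟨q, h1, h2, rfl⟩
    exact hTG (l1.trans h1) h2
  have hT1 : ∀ {v}, v ∈ TopsX tp lo l t → v ∈ TopsX tp lo hi b := by
    rintro v ⟨-, q, h1, h2, rfl⟩
    exact hTG h1 (h2.trans l2)
  have htTA : t ∉ Tops tp l hi := by
    rintro ⟨q, h1, h2, h3⟩
    exact (hno q h1 h2).1 h3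
  have hbTA : b ∉ Tops tp l hi := fun hc => hbTG (hTA hc)
  have haTA : a ∉ Tops tp l hi := fun hc => haTG (hTA hc)
  have htT1 : t ∉ TopsX tp lo l t := fun hc => hc.1 rfl
  have hbT1 : b ∉ TopsX tp lo l t := fun hc => hbTG (hT1 hc)
  have haT1 : a ∉ TopsX tp lo l t := fun hc => haTG (hT1 hc)
  have s1A : ∀ q q', l < q → q < hi → tp q' = tp q → l < q' ∧ q' < hi := by
    intro q q' h1 h2 h3
    obtain ⟨-, ⟨p, hp⟩, -, -⟩ := alt2 q h1 h2
    obtain ⟨z, hz⟩ : ∃ z, tp q = z := ⟨_, rfl⟩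
    have hzt : z ≠ t := hz ▸ (hno q h1 h2).1
    have hzb : z ≠ b := hz ▸ (hno q h1 h2).2
    exact cross_T A hna ht H.thi hp hno h1 h2 (z := z) ⟨q, hz⟩ hzt hzb (top hz hzt.symm)
      (top hz hzb.symm) (top (h3.trans hz) hzt.symm) (top (h3.trans hz) hzb.symm)
  have hTA1 : ∀ {v}, v ∈ Tops tp l hi → v ∉ TopsX tp lo l t := by
    rintro v ⟨q, h1, h2, rfl⟩ ⟨-, q', h3, h4, h5⟩
    exact absurd (s1A q q' h1 h2 h5).1 (not_lt.mpr h4.le)
  have s1T1 : ∀ q q', lo < q → q < l → tp q ≠ t → tp q' = tp q → lo < q' ∧ q' < l := by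
    intro q q' h1 h2 h3 h4
    have h5 := hs1 q q' h1 (h2.trans l2) h4
    refine ⟨h5.1, ?_⟩
    rcases lt_trichotomy q' l with h6 | h6 | h6
    · exact h6
    · exact absurd (by rw [← h4, h6, ht]) h3
    · exact absurd (s1A q' q h6 h5.2 h4.symm).1 (not_lt.mpr h2.le)
  have hTGcases : ∀ {v}, v ∈ TopsX tp lo hi b → v ∈ Tops tp l hi ∨ v = t ∨ v ∈ TopsX tp lo l t := by
    rintro v ⟨-, q, h1, h2, h3⟩
    rcases lt_trichotomy q l with h6 | h6 | h6
    · by_cases hvt : v = t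
      · exact Or.inr (Or.inl hvt)
      · exact Or.inr (Or.inr ⟨hvt, q, h1, h6, h3⟩)
    · subst h6; exact Or.inr (Or.inl (h3.symm.trans ht))
    · exact Or.inl ⟨q, h6, h2, h3⟩
  -- the partition of `R`
  set ZA : Finset V := R.filter (fun n => ∃ q, l < q ∧ q < hi ∧ Ln h tp n q) with hZAdef
  set Rc : Finset V := R.filter (fun n => (¬ ∃ q, l < q ∧ q < hi ∧ Ln h tp n q) ∧
    ∀ q, Ln h tp n q → (tp q ∈ TopsX tp lo l t ∨ tp q = a ∨ tp q = t)) with hRcdef
  have hZAR : ∀ {n}, n ∈ ZA → n ∈ R := fun hn => (Finset.mem_filter.mp hn).1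
  have hRcR : ∀ {n}, n ∈ Rc → n ∈ R := fun hn => (Finset.mem_filter.mp hn).1
  have hZAcap : ∀ {n}, n ∈ ZA → ∀ {q}, Ln h tp n q → (tp q ∈ Tops tp l hi ∨ tp q = t ∨ tp q = b) := by
    intro n hn q hq
    obtain ⟨h1, q₀, h2, h3, h4⟩ := Finset.mem_filter.mp hn
    exact (alt2 q₀ h2 h3).2.2.2 n h1 ⟨q₀, h2, h3, h4⟩ q hq
  have hRccap : ∀ {n}, n ∈ Rc → ∀ {q}, Ln h tp n q →
      (tp q ∈ TopsX tp lo l t ∨ tp q = a ∨ tp q = t) := by
    intro n hn q hq
    exact (Finset.mem_filter.mp hn).2.2 q hq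
  have hZAne : ∀ {n}, n ∈ ZA → a ≠ b := by
    intro n hn
    obtain ⟨h1, q₀, h2, h3, h4⟩ := Finset.mem_filter.mp hn
    exact (alt2 q₀ h2 h3).1
  have hZARc : ∀ {n}, n ∈ ZA → n ∉ Rc := fun hn hc =>
    (Finset.mem_filter.mp hc).2.1 (Finset.mem_filter.mp hn).2
  -- elements of `ZA` are not lonely under `TopsX tp lo l t`
  have hZAT1 : ∀ {n q}, Ln h tp n q → tp q ∈ TopsX tp lo l t → n ∉ ZA := by
    intro n q hq h1 hn
    rcases hZAcap hn hq with h2 | h2 | h2
    · exact hTA1 h2 h1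
    · exact htT1 (h2 ▸ h1)
    · exact hbT1 (h2 ▸ h1)
  -- the colour of `t`
  obtain ⟨j, hja, hjb⟩ : ∃ j : Fin 3, j ≠ c₀ a ∧ j ≠ c₀ b := by
    have : ∀ x y : Fin 3, ∃ j : Fin 3, j ≠ x ∧ j ≠ y := by decide
    exact this _ _
  set c₁ : V → Fin 3 := fun v => if v = t then j else if v ∈ R ∧ v ∉ ZA ∧ v ∉ Rc then c₀ a
    else c₀ v with hc₁
  have RnT : ∀ {n}, n ∈ R → ¬ InT tp n := fun {n} hn => (H.hR n hn).1
  have c₁t : c₁ t = j := by simp [hc₁]
  have c₁R4 : ∀ {n}, n ∈ R → n ∉ ZA → n ∉ Rc → c₁ n = c₀ a := by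
    intro n h1 h2 h3
    have hnt : n ≠ t := fun e => RnT h1 (e ▸ htT)
    simp [hc₁, hnt, h1, h2, h3]
  have c₁o : ∀ {v}, v ≠ t → v ∉ R → c₁ v = c₀ v := by
    intro v h1 h2
    simp [hc₁, h1, h2]
  have haR : a ∉ R := fun hc => RnT hc haT
  have hbR : b ∉ R := fun hc => RnT hc hbT
  have htR : t ∉ R := fun hc => RnT hc htT
  have c₁a : c₁ a = c₀ a := c₁o hta.symm haR
  have c₁b : c₁ b = c₀ b := c₁o htb.symm hbR
  -- STAR on `(lo, l)`
  have hcard1 : (Set.Ioo lo l).ncard < (Set.Ioo lo hi).ncard := by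
    refine Set.ncard_lt_ncard ?_ (Set.toFinite _)
    refine ⟨fun q hq => ⟨hq.1, hq.2.trans l2⟩, fun hc => ?_⟩
    exact lt_irrefl _ (hc (show l ∈ Set.Ioo lo hi from ⟨l1, l2⟩)).2
  have hcard2 : (Set.Ioo l hi).ncard < (Set.Ioo lo hi).ncard := by
    refine Set.ncard_lt_ncard ?_ (Set.toFinite _)
    refine ⟨fun q hq => ⟨l1.trans hq.1, hq.2⟩, fun hc => ?_⟩
    exact lt_irrefl _ (hc (show l ∈ Set.Ioo lo hi from ⟨l1, l2⟩)).1
  have hstar : StarH h tp lo l a t Rc c₁ := by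
    refine ⟨l1, H.tlo, ht, fun q h1 h2 => H.na q h1 (h2.trans l2), s1T1, fun _ => ?_, ?_, ?_, ?_⟩
    · rw [c₁a, c₁t]; exact hja.symm
    · intro n hn
      exact ⟨RnT (hRcR hn), fun q hq => hRccap hn hq⟩
    · intro θ hθ S hS' j' hj' hm
      rw [c₁a] at hj'
      have hsub : S \ Rc ⊆ S \ R := by
        intro m hm'
        obtain ⟨hm1, hm2⟩ := Finset.mem_sdiff.mp hm'
        refine Finset.mem_sdiff.mpr ⟨hm1, fun hmR => ?_⟩
        have h1 : m ∉ ZA := hZAT1 (hS'.1 m hm1) hθ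
        exact hj' ((hm m hm1 hm2).symm.trans (c₁R4 hmR h1 hm2))
      refine (Finset.card_le_card hsub).trans (H.q1 θ (hT1 hθ) S hS' j' hj' fun m hm1 hm2 => ?_)
      have hmt : m ≠ t := fun e => (hS'.1 m hm1).1 (e ▸ htT)
      rw [← c₁o hmt hm2]
      exact hm m hm1 fun hc => hm2 (hRcR hc)
    · intro n hn hq
      by_cases hnR : n ∈ R
      · have hnZ : n ∉ ZA := by
          obtain ⟨q, hq1, hq2⟩ := hq
          exact hZAT1 hq2 hq1
        have hnq : ¬ ∃ q, l < q ∧ q < hi ∧ Ln h tp n q := fun hc =>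
          hnZ (Finset.mem_filter.mpr ⟨hnR, hc⟩)
        by_contra hcon
        refine hn (Finset.mem_filter.mpr ⟨hnR, hnq, fun q hq' => ?_⟩)
        by_contra hcon'
        push Not at hcon'
        exact hcon ⟨q, hq', hcon'.1, Or.inr hcon'.2.2⟩
      · obtain ⟨q, hq1, hq2⟩ := hq
        obtain ⟨q', h1, h2, h3⟩ := H.q3 n hnR ⟨q, hT1 hq1, hq2⟩
        exact ⟨q', h1, fun hc => h2 (hT1 hc), Or.inr fun e => h2 (e ▸ htTG)⟩
  obtain ⟨c₂, hc₂⟩ := hS _ (lt_of_lt_of_le hcard1 hk) P h tp A hna lo l a t Rc c₁ le_rfl hstar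
  have c₂t : c₂ t = j := by
    rw [hc₂.ext t htT1 fun hc => htR (hRcR hc), c₁t]
  have c₂a : c₂ a = c₀ a := by
    rw [hc₂.ext a haT1 fun hc => haR (hRcR hc), c₁a]
  have c₂b : c₂ b = c₀ b := by
    rw [hc₂.ext b hbT1 fun hc => hbR (hRcR hc), c₁b]
  -- DOT, mirrored, on `(l, hi)`
  have hT1T : ∀ {v}, v ∈ TopsX tp lo l t → InT tp v := by
    rintro v ⟨-, q, -, -, h1⟩; exact ⟨q, h1⟩
  have hTAT : ∀ {v}, v ∈ Tops tp l hi → InT tp v := by
    rintro v ⟨q, -, -, h1⟩; exact ⟨q, h1⟩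
  have hdotX : ∀ n, n ∉ ZA → (∃ q, tp q ∈ Tops tp l hi ∧ Ln h tp n q) →
      c₂ n = c₂ b ∧ ∃ q, Ln h tp n q ∧ tp q ∉ Tops tp l hi ∧ tp q ≠ b ∧ tp q ≠ t := by
    rintro n hn ⟨q, ⟨q', h1, h2, h3⟩, hq⟩
    have h4 := s1A q' q h1 h2 h3.symm
    have hnR : n ∉ R := fun hc => hn (Finset.mem_filter.mpr ⟨hc, q, h4.1, h4.2, hq⟩)
    obtain ⟨hab, -, h5, -⟩ := alt2 q h4.1 h4.2
    have hnt : n ≠ t := fun e => hq.1 (e ▸ htT)
    constructor
    · rw [hc₂.ext n (fun hc => hq.1 (hT1T hc)) (fun hc => hnR (hRcR hc)), c₁o hnt hnR, c₂b]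
      exact h5 n hnR ⟨q, h4.1, h4.2, hq⟩
    · obtain ⟨q₂, h6, h7, h8⟩ := H.q3 n hnR ⟨q, hTG (l1.trans h4.1) h4.2, hq⟩
      refine ⟨q₂, h6, fun hc => h7 (hTA hc), ?_, fun e => h7 (e ▸ htTG)⟩
      rcases h8 with h8 | h8
      · rw [h8]; exact hab
      · exact h8
  obtain ⟨c₃, hc₃⟩ := (hD _ (lt_of_lt_of_le hcard2 hk)).mirror (h := h) (tp := tp) (lo := l)
    (hi := hi) (a := b) (b := t) (Z := ZA) (c₀ := c₂) A hna le_rfl l2 ht H.thi s1A
    (fun _ => by rw [c₂b, c₂t]; exact hjb.symm) (fun _ => hlast)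
    (fun n hn => ⟨RnT (hZAR hn), fun q hq => by
      rcases hZAcap hn hq with h1 | h1 | h1
      · exact Or.inl h1
      · exact Or.inr (Or.inr h1)
      · exact Or.inr (Or.inl h1)⟩) hdotX
  -- values of `c₃`
  have c₃o : ∀ {v}, v ∉ Tops tp l hi → v ∉ ZA → c₃ v = c₂ v := fun {v} h1 h2 => hc₃.ext v h1 h2
  have TnZA : ∀ {v}, InT tp v → v ∉ ZA := fun h1 h2 => RnT (hZAR h2) h1
  have c₃t : c₃ t = j := by rw [c₃o htTA (TnZA htT), c₂t]
  have c₃a : c₃ a = c₀ a := by rw [c₃o haTA (TnZA haT), c₂a]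
  have c₃b : c₃ b = c₀ b := by rw [c₃o hbTA (TnZA hbT), c₂b]
  have c₃T1 : ∀ {v}, v ∈ TopsX tp lo l t → c₃ v = c₂ v := fun {v} h1 =>
    c₃o (fun hc => hTA1 hc h1) (TnZA (hT1T h1))
  have c₃Rc : ∀ {n}, n ∈ Rc → c₃ n = c₂ n := fun {n} h1 =>
    c₃o (fun hc => RnT (hRcR h1) (hTAT hc)) fun hc => hZARc hc h1
  have c₃R4 : ∀ {n}, n ∈ R → n ∉ ZA → n ∉ Rc → c₃ n = c₀ a := by
    intro n h1 h2 h3
    rw [c₃o (fun hc => RnT h1 (hTAT hc)) h2, hc₂.ext n (fun hc => RnT h1 (hT1T hc)) h3,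
      c₁R4 h1 h2 h3]
  have c₃N : ∀ {n}, ¬ InT tp n → n ∉ R → c₃ n = c₀ n := by
    intro n h1 h2
    have hnt : n ≠ t := fun e => h1 (e ▸ htT)
    rw [c₃o (fun hc => h1 (hTAT hc)) (fun hc => h2 (hZAR hc)),
      hc₂.ext n (fun hc => h1 (hT1T hc)) (fun hc => h2 (hRcR hc)), c₁o hnt h2]
  -- adjacency and `TA`
  have sepTA : ∀ {p z w}, z ∈ Tops tp l hi → (T2 h tp p z w ∨ T2 h tp p w z) →
      w ∈ Tops tp l hi ∨ w = t ∨ w = b := by
    rintro p z w ⟨q, h1, h2, h3⟩ hT'
    obtain ⟨-, ⟨p', hp'⟩, -, -⟩ := alt2 q h1 h2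
    exact cross_T2 A hna ht H.thi hp' hno h1 h2 h3 hT'
  -- the pairs `{x', b}` with `x'` in `T1`
  have claimB : a ≠ b → ∀ x' ∈ TopsX tp lo l t, ∀ p, (T2 h tp p x' b ∨ T2 h tp p b x') →
      ∃ n, (∃ q, tp q ∈ TopsX tp lo hi b ∧ Ln h tp n q) ∧ Ln h tp n p ∧ c₃ n ≠ c₃ b := by
    intro hab x' hx' p hp
    obtain ⟨hx't, q₀, hq1, hq2, hq3⟩ := hx'
    have hx'T1 : x' ∈ TopsX tp lo l t := ⟨hx't, q₀, hq1, hq2, hq3⟩
    obtain ⟨l', hl', hl'last⟩ := exists_last (tp := tp) ⟨q₀, hq3⟩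
    have hl'r := s1T1 q₀ l' hq1 hq2 (by rw [hq3]; exact hx't) (hl'.trans hq3.symm)
    have hx'TG : x' ∈ TopsX tp lo hi b := hT1 hx'T1
    have hx'b : x' ≠ b := hx'TG.1
    have hnot : ¬ Cand h tp lo hi a b R c₀ l' := fun hc =>
      absurd (hlmin l' hc) (not_le.mpr hl'r.2)
    have hno' : ∀ q, l' < q → q < hi → tp q ≠ x' ∧ tp q ≠ b := fun q h1 h2 =>
      ⟨fun e => absurd (hl'last q e) (not_le.mpr h1), hbout q (hl'r.1.trans h1) h2⟩
    have hsplit : (∃ n, n ∉ R ∧ (∃ q, l' < q ∧ q < hi ∧ Ln h tp n q) ∧ c₀ n ≠ c₀ b) ∨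
        (∃ n ∈ R, (∃ q, l' < q ∧ q < hi ∧ Ln h tp n q) ∧
          ∃ q, Ln h tp n q ∧ tp q ∉ Tops tp l' hi ∧ tp q ≠ x' ∧ tp q ≠ b) := by
      by_contra hcon
      push Not at hcon
      refine hnot ⟨⟨hl'r.1, hl'r.2.trans l2, fun q hq => hl'last q (hq.trans hl')⟩,
        Or.inr ⟨hab, ⟨p, by rw [hl']; exact hp⟩, fun n h1 h2 => hcon.1 n h1 h2,
          fun n h1 h2 q h3 => ?_⟩⟩
      by_contra h4
      push Not at h4
      rw [hl'] at h4
      exact h4.2.2 (hcon.2 n h1 h2 q h3 h4.1 h4.2.1)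
    rcases hsplit with ⟨n, hnR, ⟨q₁, hq1', hq2', hnq⟩, hcn⟩ | ⟨n, hnR, ⟨q₁, hq1', hq2', hnq⟩, q₂,
        hnq2, h5, h6, h7⟩
    · have hq1TG : tp q₁ ∈ TopsX tp lo hi b := hTG (hl'r.1.trans hq1') hq2'
      obtain ⟨q₂, h1, h2, h3⟩ := H.q3 n hnR ⟨q₁, hq1TG, hnq⟩
      have h4 : tp q₂ ≠ b := by
        rcases h3 with h3 | h3
        · rw [h3]; exact hab
        · exact h3
      have h5 : tp q₂ ≠ x' := fun e => h2 (e ▸ hx'TG)
      have h6 : ¬ (l' < q₂ ∧ q₂ < hi) := fun hc => h2 (hTG (hl'r.1.trans hc.1) hc.2)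
      refine ⟨n, ⟨q₁, hq1TG, hnq⟩,
        cross_ln A hna hl' H.thi hp hno' hq1' hq2' hnq h1 h5 h4 h6, ?_⟩
      rw [c₃N hnq.1 hnR, c₃b]
      exact hcn
    · have hq1TG : tp q₁ ∈ TopsX tp lo hi b := hTG (hl'r.1.trans hq1') hq2'
      have h8 : ¬ (l' < q₂ ∧ q₂ < hi) := fun hc => h5 ⟨q₂, hc.1, hc.2, rfl⟩
      refine ⟨n, ⟨q₁, hq1TG, hnq⟩,
        cross_ln A hna hl' H.thi hp hno' hq1' hq2' hnq hnq2 h6 h7 h8, ?_⟩
      have htl' : t ∈ Tops tp l' hi := ⟨l, hl'r.2, l2, ht⟩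
      have hnZA : n ∉ ZA := by
        intro hn
        rcases hZAcap hn hnq2 with h9 | h9 | h9
        · obtain ⟨q, e1, e2, e3⟩ := h9
          exact h5 ⟨q, hl'r.2.trans e1, e2, e3⟩
        · exact h5 (h9 ▸ htl')
        · exact h7 h9
      have hca : c₃ n = c₀ a := by
        by_cases hnRc : n ∈ Rc
        · rw [c₃Rc hnRc, ← c₂a]
          refine hc₂.c5 hta.symm n hnRc x' hx'T1 b hbT1 hab.symm htb.symm ⟨p, hp⟩
            ⟨q₂, hnq2, ?_⟩ ⟨q₁, hnq, ?_⟩
          · rcases hRccap hnRc hnq2 with h9 | h9 | h9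
            · refine Or.inr ⟨h9, fun q r hq hr => ?_⟩
              -- `q₂` is before all homes of `x'`
              have hq2r := s1T1 _ q₂ h9.2.choose_spec.1 h9.2.choose_spec.2.1
                (by rw [h9.2.choose_spec.2.2]; exact h9.1) h9.2.choose_spec.2.2.symm
              have hout : ∀ s, tp s = tp q₂ → s < l' := by
                intro s hs
                have hsr := s1T1 q₂ s hq2r.1 hq2r.2 h9.1 hs
                rcases lt_trichotomy s l' with e | e | e
                · exact e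
                · exact absurd (by rw [← hs, e, hl']) h6
                · exact absurd ⟨s, e, hsr.2.trans l2, hs⟩ h5
              have hx'T : InT tp x' := ⟨l', hl'⟩
              have hq2lt : ∀ r, tp r = x' → q₂ < r := by
                intro r hr
                by_contra hc
                rcases (not_lt.mp hc).lt_or_eq with e | e
                · have := sep1 A hna hr hl' e (hout q₂ rfl)
                    (hnq2.2 x' hx'T h6.symm) (hnq.2 x' hx'T (hno' q₁ hq1' hq2').1.symm)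
                  exact absurd this.2 (not_lt.mpr hq1'.le)
                · exact h6 (by rw [← e]; exact hr)
              by_contra hc
              rcases (not_lt.mp hc).lt_or_eq with e | e
              · exact hna (tp q₂) x' q₂ r q l' (hq2lt r hr) e (hout q hq)
                  (top rfl h6.symm) (top hr h6) (top hq h6.symm) (top hl' h6)
              · exact h6 (by rw [← hq, ← e]; exact hr)
            · exact Or.inl h9
            · exact absurd (h9 ▸ htl') h5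
          · rcases hRccap hnRc hnq with h9 | h9 | h9
            · refine Or.inr ⟨h9, fun r q hr hq => ?_⟩
              by_contra hc
              have hx'1 := (hno' q₁ hq1' hq2').1
              have hb1 := (hno' q₁ hq1' hq2').2
              have hqr : q ≤ l' := (not_lt.mp hc).trans (hl'last r hr)
              have := cross_T A hna hl' H.thi hp hno' hq1' hq2' (z := tp q₁) ⟨q₁, rfl⟩ hx'1 hb1
                (top rfl hx'1.symm) (top rfl hb1.symm) (q₂ := q) (top hq hx'1.symm)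
                (top hq hb1.symm)
              exact absurd this.1 (not_lt.mpr hqr)
            · exact absurd h9 (H.na q₁ (hl'r.1.trans hq1') hq2')
            · exact Or.inl h9
        · exact c₃R4 hnR hnZA hnRc
      rw [hca, c₃b]
      exact H.cab hab
  refine ⟨c₃, ?_, ?_, ?_, ?_, ?_⟩
  · -- ext
    intro v hv hvR
    have h1 : v ≠ t := fun e => hv (e ▸ htTG)
    rw [c₃o (fun hc => hv (hTA hc)) (fun hc => hvR (hZAR hc)),
      hc₂.ext v (fun hc => hv (hT1 hc)) (fun hc => hvR (hRcR hc)), c₁o h1 hvR]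
  · -- C1
    intro p x y hT hx hy hxy
    by_cases hTAc : x ∈ Tops tp l hi ∨ y ∈ Tops tp l hi
    · have hx' : x ∈ Tops tp l hi ∨ x = b ∨ x = t := by
        rcases hTAc with h1 | h1
        · exact Or.inl h1
        · rcases sepTA h1 (Or.inr hT) with h2 | h2 | h2
          · exact Or.inl h2
          · exact Or.inr (Or.inr h2)
          · exact Or.inr (Or.inl h2)
      have hy' : y ∈ Tops tp l hi ∨ y = b ∨ y = t := by
        rcases hTAc with h1 | h1
        · rcases sepTA h1 (Or.inl hT) with h2 | h2 | h2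
          · exact Or.inl h2
          · exact Or.inr (Or.inr h2)
          · exact Or.inr (Or.inl h2)
        · exact Or.inl h1
      rcases hc₃.c1 p x y hT hx' hy' hTAc with h1 | ⟨n, ⟨q, h1, h2⟩, h3, h4⟩
      · exact Or.inl h1
      · exact Or.inr ⟨n, ⟨q, hTA h1, h2⟩, h3, h4⟩
    · push Not at hTAc
      have hx' : x ∈ TopsX tp lo l t ∨ x = a ∨ x = t ∨ x = b := by
        rcases hx with h1 | h1 | h1
        · rcases hTGcases h1 with h2 | h2 | h2
          · exact absurd h2 hTAc.1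
          · exact Or.inr (Or.inr (Or.inl h2))
          · exact Or.inl h2
        · exact Or.inr (Or.inl h1)
        · exact Or.inr (Or.inr (Or.inr h1))
      have hy' : y ∈ TopsX tp lo l t ∨ y = a ∨ y = t ∨ y = b := by
        rcases hy with h1 | h1 | h1
        · rcases hTGcases h1 with h2 | h2 | h2
          · exact absurd h2 hTAc.2
          · exact Or.inr (Or.inr (Or.inl h2))
          · exact Or.inl h2
        · exact Or.inr (Or.inl h1)
        · exact Or.inr (Or.inr (Or.inr h1))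
      have hxney : x ≠ y := fun e => hT.2.2.1 e.symm
      -- the continuing state
      have cont : (x ∈ TopsX tp lo l t ∨ x = a ∨ x = t) → (y ∈ TopsX tp lo l t ∨ y = a ∨ y = t) →
          c₃ x ≠ c₃ y ∨ ∃ n, (∃ q, tp q ∈ TopsX tp lo hi b ∧ Ln h tp n q) ∧ Ln h tp n p ∧
            c₃ n ≠ c₃ x := by
        intro e1 e2
        have val : ∀ {v}, (v ∈ TopsX tp lo l t ∨ v = a ∨ v = t) → c₃ v = c₂ v := by
          rintro v (e | e | e)
          · exact c₃T1 e
          · rw [e, c₃a, c₂a]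
          · rw [e, c₃t, c₂t]
        by_cases e3 : x ∈ TopsX tp lo l t ∨ y ∈ TopsX tp lo l t
        · rcases hc₂.c1 p x y hT e1 e2 e3 with h1 | ⟨n, ⟨q, h1, h2⟩, h3, h4⟩
          · exact Or.inl (by rw [val e1, val e2]; exact h1)
          · refine Or.inr ⟨n, ⟨q, hT1 h1, h2⟩, h3, ?_⟩
            rw [val e1, c₃o (fun hc => h2.1 (hTAT hc)) (hZAT1 h2 h1)]
            exact h4
        · push Not at e3
          left
          rcases e1 with e1 | e1 | e1
          · exact absurd e1 e3.1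
          · rcases e2 with e2 | e2 | e2
            · exact absurd e2 e3.2
            · exact absurd (e1.trans e2.symm) hxney
            · rw [e1, e2, c₃a, c₃t]; exact hja.symm
          · rcases e2 with e2 | e2 | e2
            · exact absurd e2 e3.2
            · rw [e1, e2, c₃a, c₃t]; exact hja
            · exact absurd (e1.trans e2.symm) hxney
      by_cases hab : a = b
      · refine cont ?_ ?_
        · rcases hx' with e | e | e | e
          · exact Or.inl e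
          · exact Or.inr (Or.inl e)
          · exact Or.inr (Or.inr e)
          · exact Or.inr (Or.inl (e.trans hab.symm))
        · rcases hy' with e | e | e | e
          · exact Or.inl e
          · exact Or.inr (Or.inl e)
          · exact Or.inr (Or.inr e)
          · exact Or.inr (Or.inl (e.trans hab.symm))
      · by_cases hxb : x = b
        · -- `y ≠ b`, `y` in `TG`
          have hyTG : y ∈ TopsX tp lo hi b := by
            rcases hxy with e | e
            · exact absurd (hxb ▸ e) hbTG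
            · exact e
          rcases hTGcases hyTG with e | e | e
          · exact absurd e hTAc.2
          · left; rw [hxb, e, c₃b, c₃t]; exact hjb.symm
          · obtain ⟨n, h1, h2, h3⟩ := claimB hab y e p (Or.inr (hxb ▸ hT))
            exact Or.inr ⟨n, h1, h2, by rw [hxb]; exact h3⟩
        · by_cases hyb : y = b
          · have hxTG : x ∈ TopsX tp lo hi b := by
              rcases hxy with e | e
              · exact e
              · exact absurd (hyb ▸ e) hbTG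
            rcases hTGcases hxTG with e | e | e
            · exact absurd e hTAc.1
            · left; rw [hyb, e, c₃b, c₃t]; exact hjb
            · obtain ⟨n, h1, h2, h3⟩ := claimB hab x e p (Or.inl (hyb ▸ hT))
              by_cases hc : c₃ x = c₃ y
              · exact Or.inr ⟨n, h1, h2, by rw [hc, hyb]; exact h3⟩
              · exact Or.inl hc
          · refine cont ?_ ?_
            · rcases hx' with e | e | e | e
              · exact Or.inl e
              · exact Or.inr (Or.inl e)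
              · exact Or.inr (Or.inr e)
              · exact absurd e hxb
            · rcases hy' with e | e | e | e
              · exact Or.inl e
              · exact Or.inr (Or.inl e)
              · exact Or.inr (Or.inr e)
              · exact absurd e hyb
  · -- C2
    intro θ hθ S hpre hmono
    rcases hTGcases hθ with e | e | e
    · exact hc₃.c2 θ e S hpre hmono
    · rw [e, c₃t] at hmono
      have h1 : (S \ R).card ≤ 2 := by
        refine H.q1 θ hθ S hpre j hja fun m hm hmR => ?_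
        rw [← c₃N (hpre.1 m hm).1 hmR]
        exact hmono m hm
      have h2 : (S ∩ ZA).card ≤ 2 := by
        by_cases hbt : b = t
        · exact absurd hbt.symm htb
        · refine hc₃.c3 hbt θ e S hpre fun m hm _ => ?_
          rw [c₃t]; exact hmono m hm
      have h3 : S ⊆ (S \ R) ∪ (S ∩ ZA) := by
        intro m hm
        by_cases hmR : m ∈ R
        · by_cases hmZ : m ∈ ZA
          · exact Finset.mem_union_right _ (Finset.mem_inter.mpr ⟨hm, hmZ⟩)
          · exfalso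
            by_cases hmRc : m ∈ Rc
            · obtain ⟨m', hm', hm'R, hm'c⟩ := hc₂.c3 hta.symm θ e S hpre ⟨m, hm, hmRc⟩
              rw [c₂t, ← c₃Rc hm'R] at hm'c
              exact hm'c (hmono m' hm')
            · exact hja ((hmono m hm).symm.trans (c₃R4 hmR hmZ hmRc))
        · exact Finset.mem_union_left _ (Finset.mem_sdiff.mpr ⟨hm, hmR⟩)
      calc S.card ≤ ((S \ R) ∪ (S ∩ ZA)).card := Finset.card_le_card h3
        _ ≤ (S \ R).card + (S ∩ ZA).card := Finset.card_union_le _ _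
        _ ≤ 4 := by omega
    · refine hc₂.c2 θ e S hpre fun m hm => ?_
      have hmL := hpre.1 m hm
      rw [← c₃o (fun hc => hmL.1 (hTAT hc)) (hZAT1 hmL e), ← c₃T1 e]
      exact hmono m hm
  · -- Prot b
    intro hab θ hθ S hpre hm
    obtain ⟨m, hm, hmR⟩ := hm
    have hmL := hpre.1 m hm
    by_cases hmZ : m ∈ ZA
    · obtain ⟨m', h1, h2, h3⟩ := hc₃.c4 θ hθ S hpre ⟨m, hm, hmZ⟩
      exact ⟨m', h1, hZAR h2, h3⟩
    · by_cases hmRc : m ∈ Rc
      · exfalso
        rcases hRccap hmRc hmL with e | e | e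
        · exact hbT1 (hθ ▸ e)
        · exact hab (e.symm.trans hθ)
        · exact htb (e.symm.trans hθ)
      · refine ⟨m, hm, hmR, ?_⟩
        rw [c₃R4 hmR hmZ hmRc, c₃b]
        exact H.cab hab
  · -- C5
    intro hab n hn x hx w hw hwa hwb hadj hleft hright
    rw [c₃a]
    obtain ⟨q₁, hq1, hl1⟩ := hleft
    obtain ⟨q₂, hq2, hr2⟩ := hright
    by_cases hnZ : n ∈ ZA
    · exfalso
      rcases hTGcases hx with e | e | e
      · obtain ⟨p, hp⟩ := hadj
        rcases sepTA e hp with h1 | h1 | h1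
        · exact hw (hTA h1)
        · exact hw (h1 ▸ htTG)
        · exact hwb h1
      · -- `x = t`
        rcases hl1 with h1 | ⟨h1, h2⟩
        · rcases hZAcap hnZ hq1 with h3 | h3 | h3
          · exact haTA (h1 ▸ h3)
          · exact hta (h3.symm.trans h1)
          · exact hab (h1.symm.trans h3)
        · rw [e] at h2
          rcases hZAcap hnZ hq1 with ⟨q, e1, e2, e3⟩ | h3 | h3
          · exact absurd (h2 q l e3 ht) (not_lt.mpr e1.le)
          · exact lt_irrefl _ (h2 l l (ht.trans h3.symm) ht)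
          · exact hbTG (h3 ▸ h1)
      · obtain ⟨q₀, e1, e2, e3⟩ := e.2
        rcases hl1 with h1 | ⟨h1, h2⟩
        · rcases hZAcap hnZ hq1 with h3 | h3 | h3
          · exact haTA (h1 ▸ h3)
          · exact hta (h3.symm.trans h1)
          · exact hab (h1.symm.trans h3)
        · rcases hZAcap hnZ hq1 with ⟨q, f1, f2, f3⟩ | h3 | h3
          · exact absurd (h2 q q₀ f3 e3) (not_lt.mpr (e2.trans f1).le)
          · exact absurd (h2 l q₀ (ht.trans h3.symm) e3) (not_lt.mpr e2.le)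
          · exact hbTG (h3 ▸ h1)
    · by_cases hnRc : n ∈ Rc
      · have hright' : tp q₂ ≠ b := by
          intro e
          rcases hRccap hnRc hq2 with h3 | h3 | h3
          · exact hbT1 (e ▸ h3)
          · exact hab (h3.symm.trans e)
          · exact htb (h3.symm.trans e)
        obtain ⟨hr3, hr4⟩ : tp q₂ ∈ TopsX tp lo hi b ∧ Before tp x (tp q₂) := by
          rcases hr2 with h | h
          · exact absurd h hright'
          · exact h
        rcases hTGcases hx with e | e | e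
        · exfalso
          obtain ⟨p, hp⟩ := hadj
          rcases sepTA e hp with h1 | h1 | h1
          · exact hw (hTA h1)
          · exact hw (h1 ▸ htTG)
          · exact hwb h1
        · exfalso
          rw [e] at hr4
          rcases hRccap hnRc hq2 with h3 | h3 | h3
          · obtain ⟨q₀, e1, e2, e3⟩ := h3.2
            exact absurd (hr4 l q₀ ht e3) (not_lt.mpr e2.le)
          · exact haTG (h3 ▸ hr3)
          · exact lt_irrefl _ (hr4 l l ht (ht.trans h3.symm))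
        · rw [c₃Rc hnRc, ← c₂a]
          obtain ⟨q₀, e1, e2, e3⟩ := e.2
          refine hc₂.c5 hta.symm n hnRc x e w (fun hc => hw (hT1 hc)) hwa
            (fun hc => hw (hc ▸ htTG)) hadj ⟨q₁, hq1, ?_⟩ ⟨q₂, hq2, ?_⟩
          · rcases hl1 with h1 | ⟨h1, h2⟩
            · exact Or.inl h1
            · rcases hRccap hnRc hq1 with h3 | h3 | h3
              · exact Or.inr ⟨h3, h2⟩
              · exact Or.inl h3
              · exact absurd (h2 l q₀ (ht.trans h3.symm) e3) (not_lt.mpr e2.le)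
          · rcases hRccap hnRc hq2 with h3 | h3 | h3
            · exact Or.inr ⟨h3, hr4⟩
            · exact absurd (h3 ▸ hr3) haTG
            · exact Or.inl h3
      · exact c₃R4 hn hnZ hnRc

end Pool.Agent.Dabab
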