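import Pool.Agent.Dabab.DotOfStar
import Pool.Agent.Dabab.Star1
import Pool.Agent.Dabab.Star2
import Pool.Agent.Dabab.Heights
import Pool.Agent.Dabab.Omega

/-!
# Every dual-ABAB-free hypergraph has a 3-colouring without monochromatic hyperedges of size `≥ 6`
-/

namespace Pool.Agent.Dabab

theorem star_all (V : Type) [DecidableEq V] (k : ℕ) : StarClaim V k := by
  induction k using Nat.strong_induction_on with
  | _ k ih =>
    intro P _ _ h tp A hna lo hi a b R c₀ hk H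
    have hD : ∀ k' < k, DotClaim V k' := fun k' hk' => dot_of_star (ih k' hk')
    by_cases hne : ∃ q, lo < q ∧ q < hi
    · by_cases hb : ∃ q, lo < q ∧ q < hi ∧ tp q = b
      · exact star_case1 hD ih A hna hk H hb
      · exact star_case2 hD ih A hna hk H (fun q h1 h2 h3 => hb ⟨q, h1, h2, h3⟩) hne
    · exact star_case0 H fun q h1 h2 => hne ⟨q, h1, h2⟩

theorem three_colours {ι V : Type} [LinearOrder ι] [Finite ι] [Finite V] (S : ι → Finset V)
    (hS : ∀ v w : V, ¬ ∃ a₁ b₁ a₂ b₂ : ι, a₁ < b₁ ∧ b₁ < a₂ ∧ a₂ < b₂ ∧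
      (v ∈ S a₁ ∧ w ∉ S a₁) ∧ (w ∈ S b₁ ∧ v ∉ S b₁) ∧ (v ∈ S a₂ ∧ w ∉ S a₂) ∧
      (w ∈ S b₂ ∧ v ∉ S b₂)) :
    ∃ f : V → Fin 3, ∀ i, 6 ≤ (S i).card → ∃ x ∈ S i, ∃ y ∈ S i, f x ≠ f y := by
  obtain ⟨h, hinj, hna, hup⟩ := exists_heights S hS
  obtain ⟨f, hf⟩ := colouring_of_dot (fun V _ k => dot_of_star (star_all V k)) h hinj hna
  exact ⟨f, fun i hi => hf i (S i) hi fun x hx y hy => hup i x y hx hy⟩

end Pool.Agent.Dabab
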