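import Pool.Agent.Dabab.Defs

/-!
# The mirrored form of DOT (the designated curve `a` is at the right end `hi`)
-/

namespace Pool.Agent.Dabab

variable {V : Type} [DecidableEq V] {k : ℕ} {P : Type} [LinearOrder P] [Finite P]
  {h : P → V → ℕ} {tp : P → V} {lo hi : P} {a b : V} {Z : Finset V} {c₀ : V → Fin 3}

omit [DecidableEq V] [Finite P] in
theorem noAlt_dual (hna : NoAlt h) : NoAlt (P := Pᵒᵈ) (fun p => h (OrderDual.ofDual p)) := by
  intro v w p₁ p₂ p₃ p₄ h12 h23 h34 a1 a2 a3 a4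
  exact hna w v (OrderDual.ofDual p₄) (OrderDual.ofDual p₃) (OrderDual.ofDual p₂)
    (OrderDual.ofDual p₁) h34 h23 h12 a4 a3 a2 a1

omit [DecidableEq V] [Finite P] in
theorem tops_dual : Tops (P := Pᵒᵈ) (fun p => tp (OrderDual.ofDual p)) (OrderDual.toDual hi)
    (OrderDual.toDual lo) = Tops tp lo hi := by
  ext z
  constructor
  · rintro ⟨q, h1, h2, h3⟩
    exact ⟨OrderDual.ofDual q, h2, h1, h3⟩
  · rintro ⟨q, h1, h2, h3⟩
    exact ⟨OrderDual.toDual q, h2, h1, h3⟩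

/-- Apply `DotClaim` to the order dual of `P`. -/
theorem DotClaim.mirror (H : DotClaim V k) (A : IsArr h tp) (hna : NoAlt h)
    (hk : (Set.Ioo lo hi).ncard ≤ k) (lt : lo < hi) (tlo : tp lo = b) (thi : tp hi = a)
    (s1 : ∀ q q', lo < q → q < hi → tp q' = tp q → lo < q' ∧ q' < hi)
    (cab : a ≠ b → c₀ a ≠ c₀ b) (hb : a ≠ b → ∀ q, tp q = b → q ≤ lo)
    (hZ : ∀ n ∈ Z, ¬ InT tp n ∧ ∀ q, Ln h tp n q → (tp q ∈ Tops tp lo hi ∨ tp q = a ∨ tp q = b))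
    (hX : ∀ n, n ∉ Z → (∃ q, tp q ∈ Tops tp lo hi ∧ Ln h tp n q) →
      c₀ n = c₀ a ∧ ∃ q, Ln h tp n q ∧ tp q ∉ Tops tp lo hi ∧ tp q ≠ a ∧ tp q ≠ b) :
    ∃ c, DotC h tp (Tops tp lo hi) a b Z c₀ c := by
  have key := H Pᵒᵈ (fun p => h (OrderDual.ofDual p)) (fun p => tp (OrderDual.ofDual p)) A
    (noAlt_dual hna) (OrderDual.toDual hi) (OrderDual.toDual lo) a b Z c₀ ?_ ?_
  · obtain ⟨c, hc⟩ := key
    rw [tops_dual] at hc
    exact ⟨c, ⟨hc.ext, hc.c1, hc.c2, hc.c3, hc.c4⟩⟩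
  · have : Set.Ioo (OrderDual.toDual hi) (OrderDual.toDual lo) = (Set.Ioo lo hi : Set P) := by
      ext q
      exact and_comm
    rw [this]
    exact hk
  · refine ⟨lt, thi, tlo, ?_, cab, hb, ?_, ?_⟩
    · intro q q' h1 h2 h3
      exact (s1 q q' h2 h1 h3).symm
    · intro n hn
      refine ⟨(hZ n hn).1, fun q hq => ?_⟩
      rw [tops_dual]
      exact (hZ n hn).2 q hq
    · intro n hn hq
      rw [tops_dual] at hq ⊢
      exact hX n hn hq

end Pool.Agent.Dabab
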