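import Pool.Agent.Dabab.Defs

/-!
# Two colours for families without 3 alternations, threshold 3
-/

namespace Pool.Agent.Dabab

theorem exists_top_k {V : Type} [DecidableEq V] (f : V → ℕ) (hf : Function.Injective f)
    (E : Finset V) (k : ℕ) (hk : k ≤ E.card) :
    ∃ C ⊆ E, C.card = k ∧ ∀ x ∈ C, ∀ y ∈ E, y ∉ C → f y < f x := by
  induction k with
  | zero => exact ⟨∅, Finset.empty_subset _, rfl, fun x hx => absurd hx (Finset.notMem_empty x)⟩
  | succ k ih =>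
    obtain ⟨C, hCE, hCk, hC⟩ := ih (Nat.le_of_succ_le hk)
    have hne : (E \ C).Nonempty := by
      rw [← Finset.card_pos, Finset.card_sdiff_of_subset hCE]
      omega
    obtain ⟨y₀, hy₀, hmax⟩ := Finset.exists_max_image (E \ C) f hne
    obtain ⟨hy₀E, hy₀C⟩ := Finset.mem_sdiff.mp hy₀
    refine ⟨insert y₀ C, Finset.insert_subset hy₀E hCE, ?_, ?_⟩
    · rw [Finset.card_insert_of_notMem hy₀C, hCk]
    · intro x hx y hy hyC
      rw [Finset.mem_insert, not_or] at hyC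
      rcases Finset.mem_insert.mp hx with e | e
      · rw [e]
        exact lt_of_le_of_ne (hmax y (Finset.mem_sdiff.mpr ⟨hy, hyC.2⟩)) fun e' => hyC.1 (hf e')
      · exact hC x e y hy hyC.2

/-- Pseudoline lemma. `D` = the positions considered, `E` = a family of curves no two of which
alternate three times on `D`. There is a subset `S₂` of `E` such that the three highest curves of
`E` at any position of `D` are neither all in `S₂` nor all outside. -/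
theorem pseudo {P V : Type} [LinearOrder P] [Finite P] [DecidableEq V] (h : P → V → ℕ)
    (hinj : ∀ p, Function.Injective (h p)) (D : Set P) (E : Finset V)
    (hE : ∀ v ∈ E, ∀ w ∈ E, ∀ p₁ ∈ D, ∀ p₂ ∈ D, ∀ p₃ ∈ D, p₁ < p₂ → p₂ < p₃ →
      h p₁ w < h p₁ v → h p₂ v < h p₂ w → ¬ h p₃ w < h p₃ v) :
    ∃ S₂ ⊆ E, ∀ θ ∈ D, ∀ F ⊆ E, (∀ x ∈ F, ∀ y ∈ E, h θ x < h θ y → y ∈ F) →
      (F ⊆ S₂ ∨ Disjoint F S₂) → F.card ≤ 2 := by
  classical
  by_cases hcard : E.card ≤ 2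
  · exact ⟨∅, Finset.empty_subset _, fun θ _ F hF _ _ => (Finset.card_le_card hF).trans hcard⟩
  have hE3 : 3 ≤ E.card := by omega
  let Top3 : P → Finset V → Prop := fun θ C =>
    C ⊆ E ∧ C.card = 3 ∧ ∀ x ∈ C, ∀ y ∈ E, y ∉ C → h θ y < h θ x
  have ex3 : ∀ θ, ∃ C, Top3 θ C := fun θ => by
    obtain ⟨C, h1, h2, h3⟩ := exists_top_k (h θ) (hinj θ) E 3 hE3
    exact ⟨C, h1, h2, h3⟩
  let Hit : Finset V → Prop := fun S => ∀ θ ∈ D, ∀ C, Top3 θ C → ∃ x ∈ C, x ∈ S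
  set TE : Finset V := E.filter (fun x => ∃ θ ∈ D, ∀ y ∈ E, h θ y ≤ h θ x) with hTE
  have hTEhit : Hit TE := by
    intro θ hθ C hC
    obtain ⟨x₀, hx₀, hmax⟩ := Finset.exists_max_image E (h θ) (Finset.card_pos.mp (by omega))
    have hx₀C : x₀ ∈ C := by
      by_contra hc
      obtain ⟨x, hx⟩ : C.Nonempty := Finset.card_pos.mp (by rw [hC.2.1]; omega)
      exact absurd (hC.2.2 x hx x₀ hx₀ hc) (not_lt.mpr (hmax x (hC.1 hx)))
    exact ⟨x₀, hx₀C, Finset.mem_filter.mpr ⟨hx₀, θ, hθ, hmax⟩⟩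
  obtain ⟨S₂, hS₂, hmin⟩ := Finset.exists_min_image (TE.powerset.filter Hit) Finset.card
    ⟨TE, Finset.mem_filter.mpr ⟨Finset.mem_powerset_self _, hTEhit⟩⟩
  obtain ⟨hS₂TE, hS₂hit⟩ := Finset.mem_filter.mp hS₂
  rw [Finset.mem_powerset] at hS₂TE
  have hS₂E : S₂ ⊆ E := hS₂TE.trans (Finset.filter_subset _ _)
  -- private top-3 sets
  have priv : ∀ s ∈ S₂, ∃ θ ∈ D, ∃ C, Top3 θ C ∧ s ∈ C ∧ ∀ x ∈ C, x ∈ S₂ → x = s := by
    intro s hs
    have hno : ¬ Hit (S₂.erase s) := by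
      intro hc
      have h1 := hmin (S₂.erase s) (Finset.mem_filter.mpr
        ⟨Finset.mem_powerset.mpr ((Finset.erase_subset _ _).trans hS₂TE), hc⟩)
      have h2 := Finset.card_erase_lt_of_mem hs
      omega
    have : ∃ θ ∈ D, ∃ C, Top3 θ C ∧ ∀ x ∈ C, x ∉ S₂.erase s := by
      by_contra hcon
      push Not at hcon
      exact hno fun θ hθ C hC => by
        obtain ⟨x, h1, h2⟩ := hcon θ hθ C hC
        exact ⟨x, h1, h2⟩
    obtain ⟨θ, hθ, C, hC, hx⟩ := this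
    have huniq : ∀ x ∈ C, x ∈ S₂ → x = s := by
      intro x hxC hxS
      by_contra hne
      exact hx x hxC (Finset.mem_erase.mpr ⟨hne, hxS⟩)
    obtain ⟨x, h1, h2⟩ := hS₂hit θ hθ C hC
    exact ⟨θ, hθ, C, hC, (huniq x h1 h2) ▸ h1, huniq⟩
  have homes : ∀ s ∈ S₂, ∃ τ ∈ D, ∀ y ∈ E, h τ y ≤ h τ s := fun s hs =>
    (Finset.mem_filter.mp (hS₂TE hs)).2
  -- the main claim
  have main : ∀ θ ∈ D, ∀ C, Top3 θ C → ¬ C ⊆ S₂ := by
    intro θ hθ C hC hCS
    have : Nonempty P := ⟨θ⟩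
    choose! pos hposD Cs hCs hsC huniq using priv
    have hlt : ∀ s ∈ S₂, ∀ s' ∈ S₂, s' ≠ s → ∀ x ∈ Cs s, h (pos s) s' < h (pos s) x := by
      intro s hs s' hs' hne x hx
      exact (hCs s hs).2.2 x hx s' (hS₂E hs') fun hc => hne (huniq s hs s' hc hs')
    have hCne : C.Nonempty := Finset.card_pos.mp (by rw [hC.2.1]; omega)
    obtain ⟨s₁, hs₁, hmin1⟩ := Finset.exists_min_image C pos hCne
    obtain ⟨s₃, hs₃, hmax3⟩ := Finset.exists_max_image C pos hCne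
    obtain ⟨s₂, hs₂, hs21, hs23⟩ : ∃ s₂ ∈ C, s₂ ≠ s₁ ∧ s₂ ≠ s₃ := by
      by_contra hcon
      push Not at hcon
      have : C ⊆ {s₁, s₃} := by
        intro x hx
        rw [Finset.mem_insert, Finset.mem_singleton]
        by_cases e : x = s₁
        · exact Or.inl e
        · exact Or.inr (hcon x hx e)
      have h1 := Finset.card_le_card this
      have h2 := Finset.card_le_two (a := s₁) (b := s₃)
      rw [hC.2.1] at h1
      omega
    have posne : ∀ s ∈ C, ∀ s' ∈ C, s ≠ s' → pos s ≠ pos s' := by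
      intro s hs s' hs' hne e
      have h1 := hlt s (hCS hs) s' (hCS hs') hne.symm s (hsC s (hCS hs))
      have h2 := hlt s' (hCS hs') s (hCS hs) hne s' (hsC s' (hCS hs'))
      rw [e] at h1
      exact absurd h1 (not_lt.mpr h2.le)
    have hs13 : s₁ ≠ s₃ := by
      intro e
      refine posne s₂ hs₂ s₁ hs₁ hs21 (le_antisymm ?_ (hmin1 s₂ hs₂))
      rw [e]; exact hmax3 s₂ hs₂
    have p12 : pos s₁ < pos s₂ := lt_of_le_of_ne (hmin1 s₂ hs₂) (posne s₁ hs₁ s₂ hs₂ hs21.symm)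
    have p23 : pos s₂ < pos s₃ := lt_of_le_of_ne (hmax3 s₂ hs₂) (posne s₂ hs₂ s₃ hs₃ hs23)
    have hD2 := hposD s₂ (hCS hs₂)
    -- three curves above `s` at `θ` is impossible
    have fin : ∀ s ∈ C, s ≠ s₂ → (∀ x ∈ Cs s₂, ¬ h θ x < h θ s) → False := by
      intro s hs hne hx
      have hsub : Cs s₂ ⊆ C := by
        intro x hxC
        by_contra hc
        exact hx x hxC (hC.2.2 s hs x ((hCs s₂ (hCS hs₂)).1 hxC) hc)
      have heq : Cs s₂ = C := Finset.eq_of_subset_of_card_le hsub (by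
        rw [hC.2.1, (hCs s₂ (hCS hs₂)).2.1])
      exact hne (huniq s₂ (hCS hs₂) s (heq ▸ hs) (hCS hs))
    rcases lt_trichotomy θ (pos s₂) with e | e | e
    · obtain ⟨τ, hτD, hτ⟩ := homes s₃ (hCS hs₃)
      have h2 : h (pos s₂) s₃ < h (pos s₂) s₂ :=
        hlt s₂ (hCS hs₂) s₃ (hCS hs₃) hs23.symm s₂ (hsC s₂ (hCS hs₂))
      have h3 : h (pos s₃) s₂ < h (pos s₃) s₃ :=
        hlt s₃ (hCS hs₃) s₂ (hCS hs₂) hs23 s₃ (hsC s₃ (hCS hs₃))
      have hτ2 : h τ s₂ < h τ s₃ :=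
        lt_of_le_of_ne (hτ s₂ (hS₂E (hCS hs₂))) fun e' => hs23 (hinj τ e')
      have hτp : pos s₂ < τ := by
        rcases lt_trichotomy τ (pos s₂) with e' | e' | e'
        · exact absurd h3 (hE s₃ (hS₂E (hCS hs₃)) s₂ (hS₂E (hCS hs₂)) τ hτD _ hD2 _
            (hposD s₃ (hCS hs₃)) e' p23 hτ2 h2)
        · rw [e'] at hτ2
          exact absurd hτ2 (not_lt.mpr h2.le)
        · exact e'
      refine fin s₃ hs₃ hs23.symm fun x hx hlt' => ?_
      have hxE : x ∈ E := (hCs s₂ (hCS hs₂)).1 hx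
      have hx2 : h (pos s₂) s₃ < h (pos s₂) x := hlt s₂ (hCS hs₂) s₃ (hCS hs₃) hs23.symm x hx
      have hx3 : h τ x < h τ s₃ :=
        lt_of_le_of_ne (hτ x hxE) fun e' => by rw [hinj τ e'] at hlt'; exact lt_irrefl _ hlt'
      exact hE s₃ (hS₂E (hCS hs₃)) x hxE θ hθ _ hD2 τ hτD e hτp hlt' hx2 hx3
    · have hC2 := hCs s₂ (hCS hs₂)
      rw [← e] at hC2
      refine fin s₁ hs₁ hs21.symm fun x hx hlt' => ?_
      have := hlt s₂ (hCS hs₂) s₁ (hCS hs₁) hs21.symm x hx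
      rw [← e] at this
      exact absurd hlt' (not_lt.mpr this.le)
    · obtain ⟨τ, hτD, hτ⟩ := homes s₁ (hCS hs₁)
      have h2 : h (pos s₂) s₁ < h (pos s₂) s₂ :=
        hlt s₂ (hCS hs₂) s₁ (hCS hs₁) hs21.symm s₂ (hsC s₂ (hCS hs₂))
      have h3 : h (pos s₁) s₂ < h (pos s₁) s₁ :=
        hlt s₁ (hCS hs₁) s₂ (hCS hs₂) hs21 s₁ (hsC s₁ (hCS hs₁))
      have hτ2 : h τ s₂ < h τ s₁ :=
        lt_of_le_of_ne (hτ s₂ (hS₂E (hCS hs₂))) fun e' => hs21 (hinj τ e')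
      have hτp : τ < pos s₂ := by
        rcases lt_trichotomy τ (pos s₂) with e' | e' | e'
        · exact e'
        · rw [e'] at hτ2
          exact absurd hτ2 (not_lt.mpr h2.le)
        · exact absurd hτ2 (hE s₁ (hS₂E (hCS hs₁)) s₂ (hS₂E (hCS hs₂)) _
            (hposD s₁ (hCS hs₁)) _ hD2 τ hτD p12 e' h3 h2)
      refine fin s₁ hs₁ hs21.symm fun x hx hlt' => ?_
      have hxE : x ∈ E := (hCs s₂ (hCS hs₂)).1 hx
      have hx2 : h (pos s₂) s₁ < h (pos s₂) x := hlt s₂ (hCS hs₂) s₁ (hCS hs₁) hs21.symm x hx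
      have hx3 : h τ x < h τ s₁ :=
        lt_of_le_of_ne (hτ x hxE) fun e' => by rw [hinj τ e'] at hlt'; exact lt_irrefl _ hlt'
      exact hE s₁ (hS₂E (hCS hs₁)) x hxE τ hτD _ hD2 θ hθ hτp e hx3 hx2 hlt'
  refine ⟨S₂, hS₂E, fun θ hθ F hF hup hcase => ?_⟩
  by_contra hc
  have hF3 : 3 ≤ F.card := by omega
  obtain ⟨C, hC⟩ := ex3 θ
  have hCF : C ⊆ F := by
    intro x hx
    by_contra hxF
    have hFC : F ⊆ C := by
      intro f hf
      by_contra hfC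
      exact hxF (hup f hf x (hC.1 hx) (hC.2.2 x hx f (hF hf) hfC))
    have : F = C := Finset.eq_of_subset_of_card_le hFC (by rw [hC.2.1]; exact hF3)
    exact hxF (this ▸ hx)
  rcases hcase with e | e
  · exact main θ hθ C hC (hCF.trans e)
  · obtain ⟨x, h1, h2⟩ := hS₂hit θ hθ C hC
    exact Finset.disjoint_left.mp e (hCF h1) h2

end Pool.Agent.Dabab
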